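import Pool.Agent.Lib.MP_d118f9_ag.Defs

/-!
# MP_d118f9_ag, block C: the function field is finite over `k(z)` for every nonconstant `z`
-/

set_option autoImplicit false

noncomputable section

open Classical

namespace Pool.Agent.MPd118f9

variable {k K : Type} [Field k] [IsAlgClosed k] [Field K] [Algebra k K]

/-- Proof. An algebraic element has a minimal polynomial of degree one
(`IsAlgClosed.degree_eq_one_of_irreducible`, `minpoly.mem_range_of_degree_eq_one`). -/
theorem transcendental_of_ne {z : K} (hz : ∀ c : k, z ≠ algebraMap k K c) :
    Transcendental k z := by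
  intro h
  have h1 : (minpoly k z).degree = 1 :=
    IsAlgClosed.degree_eq_one_of_irreducible k (minpoly.irreducible h.isIntegral)
  obtain ⟨c, hc⟩ := minpoly.mem_range_of_degree_eq_one k z h1
  exact hz c hc.symm

section

variable {k K : Type} [Field k] [Field K] [Algebra k K]

open scoped IntermediateField.algebraAdjoinAdjoin in
private theorem a1_algebraic {z : K}
    (h : FiniteDimensional (IntermediateField.adjoin k {z}) K) :
    Algebra.IsAlgebraic (Algebra.adjoin k {z}) K := by
  have h1 : Algebra.IsAlgebraic (IntermediateField.adjoin k {z}) K := inferInstance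
  exact Algebra.IsAlgebraic.trans (Algebra.adjoin k {z}) (IntermediateField.adjoin k {z}) K

private theorem a1_ess {z : K} (h : FiniteDimensional (IntermediateField.adjoin k {z}) K) :
    Algebra.EssFiniteType k K := by
  have h1 : Algebra.EssFiniteType k (IntermediateField.adjoin k {z}) := by
    rw [IntermediateField.essFiniteType_iff]
    exact ⟨{z}, by rw [Finset.coe_singleton]⟩
  exact Algebra.EssFiniteType.comp k (IntermediateField.adjoin k {z}) K

private theorem a1_trdeg {z : K} (hz : Transcendental k z)
    (h : FiniteDimensional (IntermediateField.adjoin k {z}) K) :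
    Algebra.trdeg k K ≤ Cardinal.mk Unit := by
  have h1 : IsTranscendenceBasis k (fun _ : Unit => z) := by
    rw [isTranscendenceBasis_iff_algebraicIndependent_isAlgebraic]
    refine ⟨algebraicIndependent_unique_type_iff.2 hz, ?_⟩
    rw [Set.range_const]
    exact a1_algebraic h
  exact h1.cardinalMk_eq_trdeg.ge

private theorem a1_field {z₀ z : K} (hz₀ : Transcendental k z₀)
    (h : FiniteDimensional (IntermediateField.adjoin k {z₀}) K) (hz : Transcendental k z) :
    Algebra.IsAlgebraic (IntermediateField.adjoin k {z}) K := by
  have h1 : AlgebraicIndependent k (fun _ : Unit => z) :=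
    algebraicIndependent_unique_type_iff.2 hz
  have h2 := (h1.isTranscendenceBasis_of_trdeg_le_of_finite (a1_trdeg hz₀ h)).isAlgebraic_field
  rwa [Set.range_const] at h2

end

/-- Proof. Let `z₀` be as in the definition of `IsCurve`. `z` is algebraic over `k(z₀)`, so there is
a polynomial relation in which `z₀` occurs (`z` is transcendental over `k`); hence `z₀` is algebraic
over `k(z)`, and so is every element of `K` (`K / k(z₀)` is algebraic). In other words, use the
transcendence degree (`Algebra.trdeg`, `IsTranscendenceBasis`): it is one, and `z` is algebraically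
independent, so it is a transcendence basis. `K` is generated over `k` by `z₀` and finitely many
algebraic elements, so `K` is finitely generated and algebraic over `k(z)`, hence finite. -/
theorem IsCurve.finDim_adjoin (hK : IsCurve k K) {z : K} (hz : ∀ c : k, z ≠ algebraMap k K c) :
    FiniteDimensional (IntermediateField.adjoin k {z}) K := by
  obtain ⟨z₀, hz₀, h⟩ := hK
  have h1 := a1_field hz₀ h (transcendental_of_ne hz)
  have h2 := a1_ess h
  have h3 : Algebra.EssFiniteType (IntermediateField.adjoin k {z}) K :=
    Algebra.EssFiniteType.of_comp k (IntermediateField.adjoin k {z}) K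
  exact Algebra.finite_of_essFiniteType_of_isAlgebraic

theorem IsCurve.exists_ne (hK : IsCurve k K) : ∃ z : K, ∀ c : k, z ≠ algebraMap k K c := by
  obtain ⟨z, hz, -⟩ := hK
  refine ⟨z, fun c hc => hz ?_⟩
  rw [hc]
  exact isAlgebraic_algebraMap c

theorem adjoin_inv_eq (z : K) :
    IntermediateField.adjoin k {z⁻¹} = IntermediateField.adjoin k {z} := by
  refine le_antisymm ?_ ?_
  · rw [IntermediateField.adjoin_simple_le_iff]
    exact inv_mem (IntermediateField.mem_adjoin_simple_self k z)
  · rw [IntermediateField.adjoin_simple_le_iff]
    have h := inv_mem (IntermediateField.mem_adjoin_simple_self k z⁻¹)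
    rwa [inv_inv] at h

end Pool.Agent.MPd118f9
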