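import Pool.Agent.Lib.MP_d118f9_ag.Defs

/-!
# MP_d118f9_ag, block C: facts on orders at one point
-/

set_option autoImplicit false

noncomputable section

open Classical

namespace Pool.Agent.MPd118f9

variable {k K : Type} [Field k] [Field K] [Algebra k K]

theorem Pt.ord_zero (P : Pt k K) : P.ord 0 = 0 := by
  exact MP9a7843.ord_zero

theorem Pt.ord_one (P : Pt k K) : P.ord 1 = 0 := by
  exact P.2.ord_one

theorem Pt.mem_iff (P : Pt k K) {f : K} (hf : f ≠ 0) : f ∈ P.1 ↔ 0 ≤ P.ord f := by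
  exact (P.2.ord_nonneg_iff hf).symm

theorem Pt.ord_pow (P : Pt k K) (f : K) (n : ℕ) : P.ord (f ^ n) = n * P.ord f := by
  exact P.2.ord_pow f n

theorem Pt.ord_zpow (P : Pt k K) (f : K) (n : ℤ) : P.ord (f ^ n) = n * P.ord f := by
  exact P.2.ord_zpow f n

theorem Pt.ord_prod (P : Pt k K) {ι : Type} (s : Finset ι) (f : ι → K) (hf : ∀ i ∈ s, f i ≠ 0) :
    P.ord (∏ i ∈ s, f i) = ∑ i ∈ s, P.ord (f i) := by
  exact P.2.ord_prod s f hf

/-- Proof. `f + g` has order `≥ P.ord f` by `Pt.le_ord_add`; if it were `> P.ord f` then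
`f = (f + g) - g` would have order `> P.ord f`. -/
theorem Pt.ord_add_of_lt (P : Pt k K) {f g : K} (hf : f ≠ 0) (hg : g ≠ 0)
    (h : P.ord f < P.ord g) : f + g ≠ 0 ∧ P.ord (f + g) = P.ord f := by
  have hne : f + g ≠ 0 := by
    intro h0
    have h1 : g = -f := by
      linear_combination h0
    rw [h1, P.ord_neg] at h
    exact lt_irrefl _ h
  refine ⟨hne, le_antisymm ?_ (P.le_ord_add hf hg hne le_rfl h.le)⟩
  by_contra hcon
  rw [not_le] at hcon
  have h1 : (f + g) + -g = f := by ring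
  have h2 : P.ord f + 1 ≤ P.ord ((f + g) + -g) := by
    refine P.le_ord_add hne (neg_ne_zero.2 hg) (by rw [h1]; exact hf) (by omega) ?_
    rw [P.ord_neg]
    omega
  rw [h1] at h2
  omega

/-- Finite sums: either the sum is zero or its order is at least `n`. -/
theorem Pt.le_ord_sum (P : Pt k K) {ι : Type} (s : Finset ι) (f : ι → K) {n : ℤ}
    (hf : ∀ i ∈ s, f i = 0 ∨ n ≤ P.ord (f i)) : ∑ i ∈ s, f i = 0 ∨ n ≤ P.ord (∑ i ∈ s, f i) := by
  induction s using Finset.induction_on with
  | empty =>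
    left
    exact Finset.sum_empty
  | insert a s ha ih =>
    rw [Finset.sum_insert ha]
    have h1 := hf a (Finset.mem_insert_self a s)
    have h2 := ih fun i hi => hf i (Finset.mem_insert_of_mem hi)
    by_cases h3 : f a = 0
    · rw [h3, zero_add]
      exact h2
    by_cases h4 : ∑ i ∈ s, f i = 0
    · rw [h4, add_zero]
      exact h1
    by_cases h5 : f a + ∑ i ∈ s, f i = 0
    · exact Or.inl h5
    · exact Or.inr (P.le_ord_add h3 h4 h5 (h1.resolve_left h3) (h2.resolve_left h4))

/-- A sum in which one term has a strictly smaller order than the others is not zero. -/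
theorem Pt.sum_ne_zero (P : Pt k K) {ι : Type} (s : Finset ι) (f : ι → K) {i₀ : ι} (h0 : i₀ ∈ s)
    (hf0 : f i₀ ≠ 0) (hf : ∀ i ∈ s, i ≠ i₀ → f i = 0 ∨ P.ord (f i₀) < P.ord (f i)) :
    ∑ i ∈ s, f i ≠ 0 := by
  rw [← Finset.add_sum_erase s f h0]
  have h1 := P.le_ord_sum (s.erase i₀) f (n := P.ord (f i₀) + 1) fun i hi => by
    rcases hf i (Finset.mem_of_mem_erase hi) (Finset.ne_of_mem_erase hi) with h | h
    · exact Or.inl h
    · exact Or.inr (by omega)
  by_cases h2 : ∑ i ∈ s.erase i₀, f i = 0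
  · rw [h2, add_zero]
    exact hf0
  · exact (P.ord_add_of_lt hf0 h2 (by
      have := h1.resolve_left h2
      omega)).1

/-- Proof. `0 ≤ P.ord f` iff `f` is in the valuation ring (`f ≠ 0`), and a point is determined by its
valuation ring, which is a maximal proper subring (`IsDVRof.eq_of_le`, `IsDVRof.ne_top`). -/
theorem Pt.eq_of_le {P Q : Pt k K} (h : ∀ f : K, f ≠ 0 → 0 ≤ P.ord f → 0 ≤ Q.ord f) : P = Q := by
  have hle : P.1 ≤ Q.1 := by
    intro a ha
    by_cases h0 : a = 0
    · rw [h0]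
      exact Q.1.zero_mem
    · exact (Q.mem_iff h0).2 (h a h0 ((P.mem_iff h0).1 ha))
  exact Subtype.ext (P.2.eq_of_le hle Q.2.ne_top)

/-- A polynomial with nonzero constant coefficient in an element of positive order has order
zero; in general the order is the multiplicity of the root `0` times the order of `x`.

Proof. `p = X ^ c * q`, `c = p.rootMultiplicity 0`, `q.coeff 0 ≠ 0`, and
`aeval x q = algebraMap (q.coeff 0) + x * (…)`: all other terms are zero or of positive order
(`Pt.sum_ne_zero`-type argument, or `Pt.ord_add_of_lt`). -/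
theorem Pt.ord_aeval (P : Pt k K) {x : K} (hx : 0 < P.ord x) {p : Polynomial k} (hp : p ≠ 0) :
    Polynomial.aeval x p ≠ 0 ∧
      P.ord (Polynomial.aeval x p) = (p.rootMultiplicity 0 : ℤ) * P.ord x := by
  have hx0 : x ≠ 0 := by
    intro h
    rw [h, P.ord_zero] at hx
    exact lt_irrefl _ hx
  have hxm : x ∈ P.1 := (P.mem_iff hx0).2 hx.le
  have hmem : ∀ r : Polynomial k, Polynomial.aeval x r ∈ P.1 := by
    intro r
    rw [Polynomial.aeval_eq_sum_range]
    refine sum_mem fun i _ => ?_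
    rw [Algebra.smul_def]
    exact P.1.mul_mem _ _ (P.2.1 _) (pow_mem hxm i)
  obtain ⟨q, hq, hnd⟩ := Polynomial.exists_eq_pow_rootMultiplicity_mul_and_not_dvd p hp 0
  rw [Polynomial.dvd_iff_isRoot, Polynomial.IsRoot.def, ← Polynomial.coeff_zero_eq_eval_zero]
    at hnd
  have h1 : Polynomial.aeval x p = x ^ p.rootMultiplicity 0 * Polynomial.aeval x q := by
    conv_lhs => rw [hq]
    rw [map_mul, map_pow, map_sub, Polynomial.aeval_X, Polynomial.aeval_C, map_zero, sub_zero]
  have h2 : Polynomial.aeval x q =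
      algebraMap k K (q.coeff 0) + Polynomial.aeval x q.divX * x := by
    conv_lhs => rw [← Polynomial.divX_mul_X_add q]
    rw [map_add, map_mul, Polynomial.aeval_X, Polynomial.aeval_C, add_comm]
  have hc : algebraMap k K (q.coeff 0) ≠ 0 :=
    (map_ne_zero_iff _ (algebraMap k K).injective).2 hnd
  have h3 : Polynomial.aeval x q ≠ 0 ∧ P.ord (Polynomial.aeval x q) = 0 := by
    rw [h2]
    by_cases h4 : Polynomial.aeval x q.divX = 0
    · rw [h4, zero_mul, add_zero]
      exact ⟨hc, P.ord_algebraMap _⟩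
    · have h5 := (P.mem_iff h4).1 (hmem _)
      have h6 := P.ord_add_of_lt hc (mul_ne_zero h4 hx0) (by
        rw [P.ord_mul h4 hx0, P.ord_algebraMap]
        omega)
      rw [P.ord_algebraMap] at h6
      exact h6
  rw [h1]
  refine ⟨mul_ne_zero (pow_ne_zero _ hx0) h3.1, ?_⟩
  rw [P.ord_mul (pow_ne_zero _ hx0) h3.1, h3.2, add_zero, P.ord_pow]

end Pool.Agent.MPd118f9
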