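import Pool.Agent.Lib.MP_d118f9_ag.C.A1
import Pool.Agent.Lib.MP_d118f9_ag.C.AOrd
import Pool.Agent.Lib.MP_9a7843_ag_D.Krull

/-!
# MP_d118f9_ag, block C: residue fields, existence of zeros and poles
-/

set_option autoImplicit false

noncomputable section

open Classical

namespace Pool.Agent.MPd118f9

variable {k K : Type} [Field k] [IsAlgClosed k] [CharZero k] [Field K] [Algebra k K]

open Polynomial in
private theorem a2_unit {P : Pt k K} {f : K} (hne : ∀ c : k, f ≠ algebraMap k K c)
    (h : ∀ c : k, P.ord (f - algebraMap k K c) = 0) {p : k[X]} (hp : p ≠ 0) :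
    aeval f p ≠ 0 ∧ P.ord (aeval f p) = 0 := by
  have hs := IsAlgClosed.splits p
  rw [hs.eq_prod_roots, map_mul, aeval_C, map_multiset_prod, Multiset.map_map]
  have key : ∀ s : Multiset k,
      (s.map ((aeval f) ∘ fun a => X - C a)).prod ≠ 0 ∧
        P.ord (s.map ((aeval f) ∘ fun a => X - C a)).prod = 0 := by
    intro s
    induction s using Multiset.induction_on with
    | empty =>
      rw [Multiset.map_zero, Multiset.prod_zero]
      exact ⟨one_ne_zero, P.ord_one⟩
    | cons a s ih =>
      rw [Multiset.map_cons, Multiset.prod_cons]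
      have h1 : ((aeval f) ∘ fun a => X - C a) a = f - algebraMap k K a := by
        show (aeval f) (X - C a) = f - algebraMap k K a
        rw [map_sub, aeval_X, aeval_C]
      have h2 : f - algebraMap k K a ≠ 0 := fun h => hne a (sub_eq_zero.1 h)
      rw [h1]
      refine ⟨mul_ne_zero h2 ih.1, ?_⟩
      rw [P.ord_mul h2 ih.1, h a, ih.2, add_zero]
  have hl : algebraMap k K p.leadingCoeff ≠ 0 :=
    (map_ne_zero_iff _ (algebraMap k K).injective).2 (leadingCoeff_ne_zero.2 hp)
  refine ⟨mul_ne_zero hl (key _).1, ?_⟩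
  rw [P.ord_mul hl (key _).1, P.ord_algebraMap, (key _).2, add_zero]

/-- The residue fields are `k`.

Proof. Suppose not; then `f` is not constant and `P.ord (f - c) = 0` for all constants `c`. Every
nonzero polynomial over `k` is a product of a constant and of `X - c`'s, so `aeval f p` is a unit of
the valuation ring `A` of `P` for every `p ≠ 0`. So `A` contains `k(f)`
(`IntermediateField.mem_adjoin_simple_iff`). `K` is finite over `k(f)` (`IsCurve.finDim_adjoin`) and
`A` is integrally closed, so `A = K`, a contradiction (`IsDVRof.ne_top`). -/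
theorem IsCurve.exists_const (hK : IsCurve k K) (P : Pt k K) {f : K} (hf : 0 ≤ P.ord f) :
    ∃ c : k, f = algebraMap k K c ∨ 0 < P.ord (f - algebraMap k K c) := by
  by_contra hcon
  push Not at hcon
  have hne : ∀ c : k, f ≠ algebraMap k K c := fun c => (hcon c).1
  have hf0 : f ≠ 0 := fun h => hne 0 (by rw [h, map_zero])
  have h0 : ∀ c : k, P.ord (f - algebraMap k K c) = 0 := by
    intro c
    have h1 := (hcon c).2
    have h2 : f - algebraMap k K c ≠ 0 := fun h => hne c (sub_eq_zero.1 h)
    by_cases hc : c = 0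
    · subst hc
      rw [map_zero, sub_zero] at h1 ⊢
      exact le_antisymm h1 hf
    have h3 : -algebraMap k K c ≠ 0 :=
      neg_ne_zero.2 ((map_ne_zero_iff _ (algebraMap k K).injective).2 hc)
    have h4 : 0 ≤ P.ord (f + -algebraMap k K c) :=
      P.le_ord_add hf0 h3 (by rwa [← sub_eq_add_neg]) hf (by rw [P.ord_neg, P.ord_algebraMap])
    rw [← sub_eq_add_neg] at h4
    exact le_antisymm h1 h4
  have hA : ∀ x ∈ IntermediateField.adjoin k {f}, x ∈ P.1 := by
    intro x hx
    obtain ⟨r, s, rfl⟩ := (IntermediateField.mem_adjoin_simple_iff k x).1 hx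
    by_cases hr : r = 0
    · rw [hr, map_zero, zero_div]
      exact P.1.zero_mem
    by_cases hs : s = 0
    · rw [hs, map_zero, div_zero]
      exact P.1.zero_mem
    have hr' := a2_unit hne h0 hr
    have hs' := a2_unit hne h0 hs
    refine (P.mem_iff (div_ne_zero hr'.1 hs'.1)).2 ?_
    rw [div_eq_mul_inv, P.ord_mul hr'.1 (inv_ne_zero hs'.1), P.ord_inv, hr'.2, hs'.2]
    simp
  have hfin := hK.finDim_adjoin hne
  refine P.2.ne_top ?_
  rw [eq_top_iff]
  intro x _
  let iE : Algebra (IntermediateField.adjoin k {f}) P.1 :=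
    (({ toFun := fun x => ⟨x.1, hA x.1 x.2⟩
        map_one' := rfl
        map_mul' := fun _ _ => rfl
        map_zero' := rfl
        map_add' := fun _ _ => rfl } : IntermediateField.adjoin k {f} →+* P.1)).toAlgebra
  have hst : IsScalarTower (IntermediateField.adjoin k {f}) P.1 K :=
    IsScalarTower.of_algebraMap_eq fun _ => rfl
  have hint : IsIntegral (IntermediateField.adjoin k {f}) x :=
    (Algebra.IsIntegral.of_finite (IntermediateField.adjoin k {f}) K).isIntegral x
  have hint2 : IsIntegral P.1 x := hint.tower_top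
  obtain ⟨y, hy⟩ := IsIntegrallyClosed.isIntegral_iff.1 hint2
  rw [← hy]
  exact y.2

open scoped IntermediateField.algebraAdjoinAdjoin in
/-- The integral closure of `k[x]` satisfies the hypotheses of `exists_dvr_not_mem`. -/
private theorem a2_aux (hK : IsCurve k K) {x : K} (hx : ∀ c : k, x ≠ algebraMap k K c) :
    ∃ R : Subalgebra k K, IsNoetherianRing R ∧ IsIntegrallyClosed R ∧
      (∀ y : K, ∃ r ∈ R, ∃ s ∈ R, s ≠ 0 ∧ y = r / s) ∧ x ∈ R ∧ x⁻¹ ∉ R := by
  have htr := transcendental_of_ne hx
  have hfin := hK.finDim_adjoin hx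
  let A₀ := Algebra.adjoin k {x}
  let F₀ := IntermediateField.adjoin k {x}
  have hfr : IsFractionRing A₀ F₀ := inferInstance
  let e₀ : Polynomial k ≃ₐ[k] A₀ := AlgEquiv.ofInjective (Polynomial.aeval x)
    (transcendental_iff_injective.1 htr) |>.trans
      (Subalgebra.equivOfEq _ _ (Algebra.adjoin_singleton_eq_range_aeval k x).symm)
  have hpid : IsPrincipalIdealRing A₀ :=
    IsPrincipalIdealRing.of_surjective (e₀ : Polynomial k →+* A₀) e₀.surjective
  have hdom : IsDomain A₀ := inferInstance
  have hcl₀ : IsIntegrallyClosed A₀ := inferInstance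
  have hsep : Algebra.IsSeparable F₀ K := inferInstance
  have hst : IsScalarTower A₀ F₀ K := inferInstance
  have hnoeth : IsNoetherianRing (integralClosure A₀ K) :=
    IsIntegralClosure.isNoetherianRing A₀ F₀ K (integralClosure A₀ K)
  have hcl : IsIntegrallyClosed (integralClosure A₀ K) :=
    integralClosure.isIntegrallyClosedOfFiniteExtension F₀
  let R : Subalgebra k K :=
    { (integralClosure A₀ K).toSubsemiring with
      algebraMap_mem' := fun c => by
        have h2 : algebraMap k K c = algebraMap A₀ K (algebraMap k A₀ c) := rfl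
        rw [h2]
        exact (integralClosure A₀ K).algebraMap_mem _ }
  have hR : ∀ y : K, y ∈ R ↔ IsIntegral A₀ y := fun y => Iff.rfl
  let e : integralClosure A₀ K ≃+* R :=
    { toFun := fun y => ⟨y.1, y.2⟩
      invFun := fun y => ⟨y.1, y.2⟩
      left_inv := fun _ => rfl
      right_inv := fun _ => rfl
      map_mul' := fun _ _ => rfl
      map_add' := fun _ _ => rfl }
  have halg : Algebra.IsAlgebraic A₀ K := by
    rw [IsFractionRing.comap_isAlgebraic_iff (A := A₀) (K := F₀) (C := K)]
    infer_instance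
  have hinjO : Function.Injective (algebraMap A₀ K) := Subtype.val_injective
  have hxA : x ∈ A₀ := Algebra.self_mem_adjoin_singleton k x
  refine ⟨R, isNoetherianRing_of_ringEquiv _ e, IsIntegrallyClosed.of_equiv e, fun y => ?_,
    ?_, ?_⟩
  · obtain ⟨b, hb, hby⟩ := (Algebra.IsAlgebraic.isAlgebraic (R := A₀) y).exists_integral_multiple
    have hb0 : algebraMap A₀ K b ≠ 0 := (map_ne_zero_iff _ hinjO).2 hb
    refine ⟨b • y, hby, algebraMap A₀ K b, (hR _).2 isIntegral_algebraMap, hb0, ?_⟩
    rw [Algebra.smul_def, mul_div_cancel_left₀ _ hb0]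
  · rw [hR]
    exact isIntegral_algebraMap (x := (⟨x, hxA⟩ : A₀))
  · intro h
    rw [hR] at h
    have hxF : x⁻¹ ∈ F₀ := inv_mem (IntermediateField.mem_adjoin_simple_self k x)
    have h1 : IsIntegral A₀ (algebraMap F₀ K ⟨x⁻¹, hxF⟩) := h
    rw [isIntegral_algebraMap_iff (algebraMap F₀ K).injective] at h1
    obtain ⟨y, hy⟩ := IsIntegrallyClosed.isIntegral_iff.1 h1
    have h2 : (y : K) = x⁻¹ := congrArg Subtype.val hy
    have h3 : (y : K) ∈ (Polynomial.aeval (R := k) x).range := by
      rw [← Algebra.adjoin_singleton_eq_range_aeval]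
      exact y.2
    obtain ⟨p, hp⟩ := h3
    have hx0 : x ≠ 0 := fun h => hx 0 (by rw [h, map_zero])
    have h4 : Polynomial.aeval x (Polynomial.X * p - 1) = 0 := by
      have h5 : Polynomial.aeval x p = x⁻¹ := hp.trans h2
      rw [map_sub, map_mul, Polynomial.aeval_X, map_one, h5, mul_inv_cancel₀ hx0, sub_self]
    have h6 := (transcendental_iff.1 htr) _ h4
    have h7 := congrArg (Polynomial.eval 0) h6
    simp at h7

/-- Every nonconstant element has a zero.

Proof. Let `A₀ = Algebra.adjoin k {x}` and `R` the integral closure of `A₀` in `K`, as a subalgebra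
over `k`. `A₀` is a principal ideal domain (image of `k[X]`), `K` is finite and separable over the
quotient field `k(x)` of `A₀` (`IsCurve.finDim_adjoin`; the instance
`IsFractionRing (Algebra.adjoin k S) (IntermediateField.adjoin k S)` is scoped in
`IntermediateField.algebraAdjoinAdjoin`), so `R` is noetherian and integrally closed with quotient
field `K` (compare `D/DAbove.lean`, `above_aux`, which is the same argument). `x⁻¹` is not in `R`:
otherwise it is integral over `A₀`, so in `A₀` (integrally closed), `x⁻¹ = p(x)`,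
`x p(x) = 1`, a contradiction to the transcendence of `x` (`transcendental_of_ne`).
`MP9a7843.exists_dvr_not_mem` gives a discrete valuation ring which contains `R` but not `x⁻¹`. -/
theorem IsCurve.exists_zero (hK : IsCurve k K) {x : K} (hx : ∀ c : k, x ≠ algebraMap k K c) :
    ∃ P : Pt k K, 0 < P.ord x := by
  obtain ⟨R, h1, h2, h3, h4, h5⟩ := a2_aux hK hx
  obtain ⟨A, hA, hRA, hxA, -⟩ := MP9a7843.exists_dvr_not_mem R h3 h5
  have hx0 : x ≠ 0 := fun h => hx 0 (by rw [h, map_zero])
  refine ⟨⟨A, hA⟩, ?_⟩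
  by_contra hcon
  refine hxA ((hA.ord_nonneg_iff (inv_ne_zero hx0)).1 ?_)
  rw [hA.ord_inv]
  have : MP9a7843.ord A x ≤ 0 := not_lt.1 hcon
  omega

/-- Proof. `IsCurve.exists_zero` for `x⁻¹`. -/
theorem IsCurve.exists_pole (hK : IsCurve k K) {x : K} (hx : ∀ c : k, x ≠ algebraMap k K c) :
    ∃ P : Pt k K, P.ord x < 0 := by
  obtain ⟨P, hP⟩ := hK.exists_zero (x := x⁻¹) (by
    intro c hc
    refine hx c⁻¹ ?_
    rw [map_inv₀, ← hc, inv_inv])
  refine ⟨P, ?_⟩
  rw [P.ord_inv] at hP
  omega

end Pool.Agent.MPd118f9
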