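import Pool.Agent.Lib.MP_d118f9_ag.C.AOrd

/-!
# MP_d118f9_ag, block C: weak approximation
-/

set_option autoImplicit false

noncomputable section

open Classical

namespace Pool.Agent.MPd118f9

variable {k K : Type} [Field k] [Field K] [Algebra k K]

private theorem ne_zero_of_ord_pos {P : Pt k K} {f : K} (h : 0 < P.ord f) : f ≠ 0 := by
  rintro rfl
  rw [P.ord_zero] at h
  exact lt_irrefl _ h

/-- Proof. By `Pt.eq_of_le` (twice) there are nonzero `a`, `b` with `P.ord a ≥ 0 > Q.ord a` and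
`Q.ord b ≥ 0 > P.ord b`; `u = a / b`. -/
theorem exists_sep {P Q : Pt k K} (h : P ≠ Q) : ∃ u : K, 0 < P.ord u ∧ Q.ord u < 0 := by
  have h1 : ∃ a : K, a ≠ 0 ∧ 0 ≤ P.ord a ∧ Q.ord a < 0 := by
    by_contra hcon
    push Not at hcon
    exact h (Pt.eq_of_le fun f hf0 hf => hcon f hf0 hf)
  have h2 : ∃ b : K, b ≠ 0 ∧ 0 ≤ Q.ord b ∧ P.ord b < 0 := by
    by_contra hcon
    push Not at hcon
    exact h (Pt.eq_of_le fun f hf0 hf => hcon f hf0 hf).symm
  obtain ⟨a, ha0, ha1, ha2⟩ := h1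
  obtain ⟨b, hb0, hb1, hb2⟩ := h2
  refine ⟨a * b⁻¹, ?_, ?_⟩
  · rw [P.ord_mul ha0 (inv_ne_zero hb0), P.ord_inv]
    omega
  · rw [Q.ord_mul ha0 (inv_ne_zero hb0), Q.ord_inv]
    omega

/-- Proof. Induction on `T`. For `insert R T`: `u` for `T`; if `R.ord u < 0` take it. Otherwise let
`v` be as in `exists_sep` for `P`, `R`; take `u + v ^ m` with `m` large: for `Q ∈ T` with
`Q.ord v ≥ 0` its order is `Q.ord u < 0`; for `Q ∈ T` with `Q.ord v < 0` it is `m * Q.ord v < 0` as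
soon as `m * Q.ord v < Q.ord u`, for example for `m > - Q.ord u`; at `R` it is `m * R.ord v < 0`
(`u = 0` is impossible unless `T` is empty, treat `T = ∅` separately); at `P` both terms have
positive order and the sum is not zero. -/
theorem exists_sep_finset {P : Pt k K} {T : Finset (Pt k K)} (hP : P ∉ T) :
    ∃ u : K, 0 < P.ord u ∧ ∀ Q ∈ T, Q.ord u < 0 := by
  induction T using Finset.induction_on with
  | empty =>
    obtain ⟨ϖ, hϖ⟩ := P.exists_unif
    exact ⟨ϖ, by omega, fun Q hQ => absurd hQ (Finset.notMem_empty Q)⟩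
  | insert R T hR ih =>
    rw [Finset.mem_insert, not_or] at hP
    obtain ⟨u, hu1, hu2⟩ := ih hP.2
    by_cases hRu : R.ord u < 0
    · refine ⟨u, hu1, fun Q hQ => ?_⟩
      rcases Finset.mem_insert.1 hQ with rfl | hQ
      · exact hRu
      · exact hu2 Q hQ
    push Not at hRu
    obtain ⟨v, hv1, hv2⟩ := exists_sep hP.1
    have hu0 : u ≠ 0 := ne_zero_of_ord_pos hu1
    have hv0 : v ≠ 0 := ne_zero_of_ord_pos hv1
    set m : ℕ := 1 + ∑ Q ∈ T, (Q.ord u).natAbs with hm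
    have hmT : ∀ Q ∈ T, -(m : ℤ) < Q.ord u := by
      intro Q hQ
      have h1 : (Q.ord u).natAbs ≤ ∑ Q ∈ T, (Q.ord u).natAbs :=
        Finset.single_le_sum (f := fun Q : Pt k K => (Q.ord u).natAbs)
          (fun _ _ => Nat.zero_le _) hQ
      omega
    have hm0 : 1 ≤ m := Nat.le_add_right 1 _
    have hm1 : (1 : ℤ) ≤ m := by exact_mod_cast hm0
    have hvm : v ^ m ≠ 0 := pow_ne_zero m hv0
    have key : ∀ Q : Pt k K, Q.ord v < 0 → Q.ord (v ^ m) ≤ -(m : ℤ) := by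
      intro Q hQ
      rw [Q.ord_pow]
      nlinarith
    have hRv : R.ord (v ^ m) < R.ord u := by
      have := key R hv2
      omega
    obtain ⟨hw0, hw1⟩ := R.ord_add_of_lt hvm hu0 hRv
    refine ⟨v ^ m + u, ?_, fun Q hQ => ?_⟩
    · have h1 : (1 : ℤ) ≤ P.ord (v ^ m) := by
        rw [P.ord_pow]
        nlinarith
      have h2 := P.le_ord_add hvm hu0 hw0 h1 (by omega : (1 : ℤ) ≤ P.ord u)
      omega
    · rcases Finset.mem_insert.1 hQ with rfl | hQ
      · rw [hw1]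
        have := key Q hv2
        omega
      · by_cases hQv : Q.ord v < 0
        · have h1 := key Q hQv
          have h2 := hmT Q hQ
          rw [(Q.ord_add_of_lt hvm hu0 (by omega)).2]
          omega
        · have h1 : 0 ≤ Q.ord (v ^ m) := by
            rw [Q.ord_pow]
            exact mul_nonneg (by omega) (by omega)
          have h2 := hu2 Q hQ
          rw [add_comm, (Q.ord_add_of_lt hu0 hvm (by omega)).2]
          exact h2

/-- Proof. `u` of `exists_sep_finset`, `w = (1 + u ^ m)⁻¹` (`m ≥ 1`): `P.ord w = 0`,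
`Q.ord w = -m * Q.ord u ≥ m`; `y = ϖ ^ a * w` with `P.ord ϖ = 1` and `m` so large that
`m + a * Q.ord ϖ ≥ N` for all `Q ∈ T`. -/
theorem exists_approx {P : Pt k K} {T : Finset (Pt k K)} (hP : P ∉ T) (a N : ℤ) :
    ∃ y : K, y ≠ 0 ∧ P.ord y = a ∧ ∀ Q ∈ T, N ≤ Q.ord y := by
  obtain ⟨u, hu1, hu2⟩ := exists_sep_finset hP
  obtain ⟨ϖ, hϖ⟩ := P.exists_unif
  have hu0 : u ≠ 0 := ne_zero_of_ord_pos hu1
  have hϖ0 : ϖ ≠ 0 := ne_zero_of_ord_pos (P := P) (by omega)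
  set m : ℕ := 1 + ∑ Q ∈ T, (N - a * Q.ord ϖ).natAbs with hm
  have hmT : ∀ Q ∈ T, N - a * Q.ord ϖ ≤ m := by
    intro Q hQ
    have h1 : (N - a * Q.ord ϖ).natAbs ≤ ∑ Q ∈ T, (N - a * Q.ord ϖ).natAbs :=
      Finset.single_le_sum (f := fun Q : Pt k K => (N - a * Q.ord ϖ).natAbs)
        (fun _ _ => Nat.zero_le _) hQ
    omega
  have hm0 : 1 ≤ m := Nat.le_add_right 1 _
  have hm1 : (1 : ℤ) ≤ m := by exact_mod_cast hm0
  have hum : u ^ m ≠ 0 := pow_ne_zero m hu0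
  have hPm : P.ord (1 : K) < P.ord (u ^ m) := by
    rw [P.ord_one, P.ord_pow]
    nlinarith
  obtain ⟨hw0, hw1⟩ := P.ord_add_of_lt one_ne_zero hum hPm
  rw [P.ord_one] at hw1
  have hϖa : ϖ ^ a ≠ 0 := zpow_ne_zero a hϖ0
  have hwi : (1 + u ^ m)⁻¹ ≠ 0 := inv_ne_zero hw0
  refine ⟨ϖ ^ a * (1 + u ^ m)⁻¹, mul_ne_zero hϖa hwi, ?_, fun Q hQ => ?_⟩
  · rw [P.ord_mul hϖa hwi, P.ord_inv, hw1, P.ord_zpow, hϖ]
    ring
  · have h1 : Q.ord (u ^ m) ≤ -(m : ℤ) := by
      rw [Q.ord_pow]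
      have := hu2 Q hQ
      nlinarith
    have h2 := (Q.ord_add_of_lt hum one_ne_zero (by rw [Q.ord_one]; omega)).2
    rw [Q.ord_mul hϖa hwi, Q.ord_inv, add_comm 1 (u ^ m), h2, Q.ord_zpow]
    have := hmT Q hQ
    linarith

end Pool.Agent.MPd118f9
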