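import Pool.Agent.Lib.MP_d118f9_ag.C.A1
import Pool.Agent.Lib.MP_d118f9_ag.C.A3

/-!
# MP_d118f9_ag, block C: the number of zeros
-/

set_option autoImplicit false

noncomputable section

open Classical

namespace Pool.Agent.MPd118f9

variable {k K : Type} [Field k] [Field K] [Algebra k K]

/-- Polynomial relations between elements with prescribed orders.

`T` is a finite set of zeros of `x`, and `y P a` (`P ∈ T`, `0 ≤ a < P.ord x`) has order `a` at `P`
and order at least `Q.ord x` at the other points `Q` of `T`.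

Proof. Suppose that some `p P a` with `P ∈ T`, `a < P.ord x` is not zero. Let `c` be the minimum of
the `(p P a).rootMultiplicity 0` over the nonzero `p P a`, attained at `P`, and `a` minimal with
`(p P a).rootMultiplicity 0 = c` for this `P`. By `Pt.ord_aeval` the term `aeval x (p P a) * y P a`
has order `c * P.ord x + a` at `P`; the other terms `(P, a')`: order
`c' * P.ord x + a'` with `c' > c`, or `c' = c` and `a' > a`, so it is larger; the terms `(Q, a')`,
`Q ≠ P`: order at least `c * P.ord x + P.ord x`. So the sum is not zero (`Pt.sum_ne_zero`). -/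
theorem rel_eq_zero {x : K} {T : Finset (Pt k K)} (hT : ∀ P ∈ T, 0 < P.ord x)
    {y : Pt k K → ℕ → K} (hy0 : ∀ P ∈ T, ∀ a : ℕ, (a : ℤ) < P.ord x → y P a ≠ 0)
    (hy : ∀ P ∈ T, ∀ a : ℕ, (a : ℤ) < P.ord x → P.ord (y P a) = a)
    (hyQ : ∀ P ∈ T, ∀ a : ℕ, (a : ℤ) < P.ord x → ∀ Q ∈ T, Q ≠ P → Q.ord x ≤ Q.ord (y P a))
    {p : Pt k K → ℕ → Polynomial k}
    (h : ∑ P ∈ T, ∑ a ∈ Finset.range (P.ord x).toNat, Polynomial.aeval x (p P a) * y P a = 0) :
    ∀ P ∈ T, ∀ a : ℕ, (a : ℤ) < P.ord x → p P a = 0 := by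
  by_contra hcon
  push Not at hcon
  obtain ⟨P₁, hP₁, a₁, ha₁, hp₁⟩ := hcon
  let J : Finset (Σ _ : Pt k K, ℕ) := T.sigma fun P => Finset.range (P.ord x).toNat
  let S : Finset (Σ _ : Pt k K, ℕ) := J.filter fun j => p j.1 j.2 ≠ 0
  let c : (Σ _ : Pt k K, ℕ) → ℕ := fun j => (p j.1 j.2).rootMultiplicity 0
  have hJ : ∀ j : (Σ _ : Pt k K, ℕ), j ∈ J → j.1 ∈ T ∧ (j.2 : ℤ) < j.1.ord x := by
    intro j hj
    obtain ⟨h1, h2⟩ := Finset.mem_sigma.1 hj
    rw [Finset.mem_range] at h2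
    exact ⟨h1, by omega⟩
  have hSne : S.Nonempty := by
    refine ⟨⟨P₁, a₁⟩, Finset.mem_filter.2 ⟨Finset.mem_sigma.2 ⟨hP₁, ?_⟩, hp₁⟩⟩
    rw [Finset.mem_range]
    show a₁ < (P₁.ord x).toNat
    omega
  obtain ⟨j₀, hj₀, hmin⟩ := Finset.exists_min_image S (fun j => toLex (c j, j.2)) hSne
  obtain ⟨hj₀J, hj₀p⟩ := Finset.mem_filter.1 hj₀
  obtain ⟨hP₀, ha₀⟩ := hJ j₀ hj₀J
  have hx0 : ∀ P ∈ T, x ≠ 0 := by
    intro P hP h0
    have h1 := hT P hP
    rw [h0, P.ord_zero] at h1
    exact lt_irrefl _ h1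
  let f : (Σ _ : Pt k K, ℕ) → K := fun j => Polynomial.aeval x (p j.1 j.2) * y j.1 j.2
  have hord : ∀ (P : Pt k K), P ∈ T → ∀ j ∈ J, p j.1 j.2 ≠ 0 →
      f j ≠ 0 ∧ P.ord (f j) = c j * P.ord x + P.ord (y j.1 j.2) := by
    intro P hP j hj hpj
    obtain ⟨h1, h2⟩ := P.ord_aeval (hT P hP) hpj
    obtain ⟨h3, h4⟩ := hJ j hj
    have h5 := hy0 j.1 h3 j.2 h4
    refine ⟨mul_ne_zero h1 h5, ?_⟩
    rw [← h2]
    exact P.ord_mul h1 h5
  obtain ⟨hf0, hf0o⟩ := hord j₀.1 hP₀ j₀ hj₀J hj₀p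
  rw [hy j₀.1 hP₀ j₀.2 ha₀] at hf0o
  refine j₀.1.sum_ne_zero J f hj₀J hf0 ?_ ?_
  · intro j hj hne
    by_cases hpj : p j.1 j.2 = 0
    · left
      show Polynomial.aeval x (p j.1 j.2) * y j.1 j.2 = 0
      rw [hpj, map_zero, zero_mul]
    right
    obtain ⟨hjT, hja⟩ := hJ j hj
    rw [hf0o, (hord j₀.1 hP₀ j hj hpj).2]
    have hle := hmin j (Finset.mem_filter.2 ⟨hj, hpj⟩)
    have hxpos := hT j₀.1 hP₀
    rw [Prod.Lex.toLex_le_toLex] at hle
    have key : (c j₀ : ℤ) * j₀.1.ord x + j₀.2 < (c j : ℤ) * j₀.1.ord x + j₀.1.ord x ∧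
        (c j₀ < c j → (c j₀ : ℤ) * j₀.1.ord x + j₀.2 < (c j : ℤ) * j₀.1.ord x) := by
      have hc : c j₀ ≤ c j := by
        rcases hle with h1 | h1
        · exact h1.le
        · exact h1.1.le
      constructor
      · have h1 : (c j₀ : ℤ) ≤ c j := by exact_mod_cast hc
        nlinarith
      · intro h1
        have h2 : (c j₀ : ℤ) + 1 ≤ c j := by exact_mod_cast h1
        nlinarith
    by_cases hjP : j₀.1 = j.1
    · have hyj : j₀.1.ord (y j.1 j.2) = j.2 := by
        rw [hjP]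
        exact hy j.1 hjT j.2 hja
      rw [hyj]
      rcases hle with h1 | h1
      · have h2 := key.2 h1
        have h3 : (0 : ℤ) ≤ j.2 := Nat.cast_nonneg _
        linarith
      · obtain ⟨h2, h3⟩ := h1
        have h4 : j₀.2 ≠ j.2 := by
          intro h5
          exact hne (Sigma.ext hjP.symm (heq_of_eq h5.symm))
        have h2' : c j₀ = c j := h2
        have h5 : (j₀.2 : ℤ) < j.2 := by
          have h6 : j₀.2 ≤ j.2 := h3
          exact_mod_cast lt_of_le_of_ne h6 h4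
        rw [h2']
        linarith
    · have h1 := hyQ j.1 hjT j.2 hja j₀.1 hP₀ hjP
      linarith [key.1]
  · show ∑ j ∈ T.sigma fun P => Finset.range (P.ord x).toNat, f j = 0
    rw [Finset.sum_sigma]
    exact h

variable [IsAlgClosed k]

open scoped IntermediateField.algebraAdjoinAdjoin in
/-- Proof. Choose `y P a` by `exists_approx` for `T.erase P`. By `rel_eq_zero` the family of the
`y P a` (index type `Σ P : T, Fin (P.ord x).toNat`, of cardinality `∑ P ∈ T, P.ord x`) is linearly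
independent over `Algebra.adjoin k {x}` (its elements are `aeval x p`,
`Algebra.adjoin_singleton_eq_range_aeval`), hence over its fraction field `k(x)`
(`LinearIndependent.iff_fractionRing`, instance scoped in `IntermediateField.algebraAdjoinAdjoin`);
`LinearIndependent.fintype_card_le_finrank`. -/
theorem IsCurve.sum_ord_le (hK : IsCurve k K) {x : K} (hx : ∀ c : k, x ≠ algebraMap k K c)
    {T : Finset (Pt k K)} (hT : ∀ P ∈ T, 0 < P.ord x) :
    ∑ P ∈ T, P.ord x ≤ Module.finrank (IntermediateField.adjoin k {x}) K := by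
  have hfin : FiniteDimensional (IntermediateField.adjoin k {x}) K := hK.finDim_adjoin hx
  have hpos : ∀ P ∈ T, 0 ≤ P.ord x := fun P hP => (hT P hP).le
  have hex : ∀ (P : Pt k K) (a : ℕ), ∃ y : K, y ≠ 0 ∧ P.ord y = a ∧
      ∀ Q ∈ T.erase P, ∑ R ∈ T, R.ord x ≤ Q.ord y := fun P a =>
    exists_approx (Finset.notMem_erase P T) a _
  choose y hy0 hy hyQ using hex
  let ι : Type := Σ P : T, Fin (P.1.ord x).toNat
  let v : ι → K := fun j => y j.1.1 j.2
  have hind : LinearIndependent (Algebra.adjoin k {x}) v := by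
    rw [Fintype.linearIndependent_iff]
    intro g hg
    have hq0 : ∀ z ∈ Algebra.adjoin k {x}, ∃ q : Polynomial k, Polynomial.aeval x q = z := by
      intro z hz
      rw [Algebra.adjoin_singleton_eq_range_aeval] at hz
      exact hz
    have hq : ∀ j : ι, ∃ q : Polynomial k, Polynomial.aeval x q = (g j : K) :=
      fun j => hq0 _ (g j).2
    choose q hq using hq
    let p : Pt k K → ℕ → Polynomial k := fun P a =>
      if h : ∃ hP : P ∈ T, a < (P.ord x).toNat then q ⟨⟨P, h.1⟩, ⟨a, h.2⟩⟩ else 0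
    have hp : ∀ j : ι, p j.1.1 j.2 = q j := by
      intro j
      have h1 : ∃ hP : j.1.1 ∈ T, (j.2 : ℕ) < (j.1.1.ord x).toNat := ⟨j.1.2, j.2.2⟩
      show (if h : ∃ hP : j.1.1 ∈ T, (j.2 : ℕ) < (j.1.1.ord x).toNat then
        q ⟨⟨j.1.1, h.1⟩, ⟨j.2, h.2⟩⟩ else 0) = q j
      rw [dif_pos h1]
    have h0 := rel_eq_zero (p := p) hT (y := y) (fun P _ a _ => hy0 P a) (fun P _ a _ => hy P a)
      (fun P hP a _ Q hQ hne => (Finset.single_le_sum (f := fun R : Pt k K => R.ord x) hpos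
        hQ).trans (hyQ P a Q (Finset.mem_erase.2 ⟨hne, hQ⟩))) (by
        rw [← Finset.sum_coe_sort T]
        rw [← hg, ← Finset.univ_sigma_univ, Finset.sum_sigma]
        refine Finset.sum_congr rfl fun P _ => ?_
        rw [Finset.sum_range]
        refine Finset.sum_congr rfl fun a _ => ?_
        have h1 := hp ⟨P, a⟩
        have h2 := hq ⟨P, a⟩
        rw [h1, h2]
        rfl)
    intro j
    have h1 := h0 j.1.1 j.1.2 j.2 (by
      have h2 := j.2.2
      omega)
    rw [hp j] at h1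
    have h2 := hq j
    rw [h1, map_zero] at h2
    exact Subtype.ext h2.symm
  have hind' : LinearIndependent (IntermediateField.adjoin k {x}) v :=
    (LinearIndependent.iff_fractionRing (Algebra.adjoin k {x})
      (IntermediateField.adjoin k {x})).1 hind
  have hcard := hind'.fintype_card_le_finrank
  have h1 : Fintype.card ι = ∑ P : T, (P.1.ord x).toNat := by
    rw [Fintype.card_sigma]
    simp only [Fintype.card_fin]
  rw [h1] at hcard
  have h2 : ((∑ P : T, (P.1.ord x).toNat : ℕ) : ℤ) = ∑ P ∈ T, P.ord x := by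
    rw [← Finset.sum_coe_sort T, Nat.cast_sum]
    exact Finset.sum_congr rfl fun P _ => Int.toNat_of_nonneg (hpos P.1 P.2)
  rw [← h2]
  exact_mod_cast hcard

end Pool.Agent.MPd118f9
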