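import Pool.Agent.Lib.MP_d118f9_ag.Defs

/-!
# MP_d118f9_ag, block C: elementary facts on divisors
-/

set_option autoImplicit false

noncomputable section

open Classical

namespace Pool.Agent.MPd118f9

variable {k K : Type} [Field k] [Field K] [Algebra k K]

theorem deg_add (D D' : Dv k K) : deg (D + D') = deg D + deg D' := by
  unfold deg
  exact Finsupp.sum_add_index' (fun _ => rfl) fun _ _ _ => rfl

theorem deg_sub (D D' : Dv k K) : deg (D - D') = deg D - deg D' := by
  have h := deg_add (D - D') D'
  rw [sub_add_cancel] at h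
  linarith

theorem deg_neg (D : Dv k K) : deg (-D) = -deg D := by
  have h := deg_add D (-D)
  rw [add_neg_cancel] at h
  have h0 : deg (0 : Dv k K) = 0 := Finsupp.sum_zero_index
  linarith

theorem deg_zero : deg (0 : Dv k K) = 0 := by
  exact Finsupp.sum_zero_index

theorem deg_single (P : Pt k K) (n : ℤ) : deg (Finsupp.single P n) = n := by
  exact Finsupp.sum_single_index rfl

theorem deg_nsmul (n : ℕ) (D : Dv k K) : deg (n • D) = n * deg D := by
  induction n with
  | zero => rw [zero_smul, deg_zero, Nat.cast_zero, zero_mul]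
  | succ n ih =>
    rw [succ_nsmul, deg_add, ih]
    push_cast
    ring

theorem deg_mono {D D' : Dv k K} (h : D ≤ D') : deg D ≤ deg D' := by
  have h1 : 0 ≤ deg (D' - D) := by
    unfold deg
    refine Finset.sum_nonneg fun P _ => ?_
    have h2 := h P
    show (0 : ℤ) ≤ (D' - D) P
    rw [Finsupp.sub_apply]
    linarith
  rw [deg_sub] at h1
  linarith

theorem L_mono {D D' : Dv k K} (h : D ≤ D') : L D ≤ L D' := by
  intro f hf
  rcases hf with hf | hf
  · exact Or.inl hf
  · refine Or.inr fun P => le_trans ?_ (hf P)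
    have h2 := h P
    linarith

theorem L_inf {D D' : Dv k K} {f : K} (h : f ∈ L D) (h' : f ∈ L D') : f ∈ L (D ⊓ D') := by
  rcases h with h | h
  · exact Or.inl h
  rcases h' with h' | h'
  · exact Or.inl h'
  refine Or.inr fun P => ?_
  have h1 := h P
  have h2 := h' P
  rw [Finsupp.inf_apply]
  rcases min_choice (D P) (D' P) with h3 | h3
  · show -(min (D P) (D' P)) ≤ P.ord f
    rw [h3]
    exact h1
  · show -(min (D P) (D' P)) ≤ P.ord f
    rw [h3]
    exact h2

theorem mul_mem_L {D D' : Dv k K} {f g : K} (h : f ∈ L D) (h' : g ∈ L D') : f * g ∈ L (D + D') := by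
  by_cases hf : f = 0
  · left
    rw [hf, zero_mul]
  by_cases hg : g = 0
  · left
    rw [hg, mul_zero]
  rcases h with h | h
  · exact absurd h hf
  rcases h' with h' | h'
  · exact absurd h' hg
  refine Or.inr fun P => ?_
  have h1 := h P
  have h2 := h' P
  rw [P.ord_mul hf hg, Finsupp.add_apply]
  linarith

theorem one_mem_L {D : Dv k K} (h : 0 ≤ D) : (1 : K) ∈ L D := by
  refine Or.inr fun P => ?_
  have h1 : P.ord (1 : K) = 0 := P.2.ord_one
  have h2 : 0 ≤ D P := h P
  rw [h1]
  linarith

theorem mem_L_of_ne {D : Dv k K} {f : K} (hf : f ≠ 0) : f ∈ L D ↔ ∀ P, -D P ≤ P.ord f := by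
  exact ⟨fun h => h.resolve_left hf, Or.inr⟩

end Pool.Agent.MPd118f9
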