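import Pool.Agent.Lib.MP_d118f9_ag.Iface0
import Pool.Agent.Lib.MP_d118f9_ag.C.AEl
import Pool.Agent.Lib.MP_d118f9_ag.C.A4

/-!
# MP_d118f9_ag, block C: principal divisors
-/

set_option autoImplicit false

noncomputable section

open Classical

namespace Pool.Agent.MPd118f9

variable {k K : Type} [Field k] [IsAlgClosed k] [CharZero k] [Field K] [Algebra k K]

private theorem finite_zeros (hK : IsCurve k K) {f : K} (hf : ∀ c : k, f ≠ algebraMap k K c) :
    {P : Pt k K | 0 < P.ord f}.Finite := by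
  by_contra hinf
  obtain ⟨T, hT, hcard⟩ := (Set.Infinite.exists_subset_card_eq hinf
    (Module.finrank (IntermediateField.adjoin k {f}) K + 1))
  have h1 : ∀ P ∈ T, 0 < P.ord f := fun P hP => hT hP
  have h2 := hK.sum_ord_le hf h1
  have h3 : ((T.card : ℕ) : ℤ) ≤ ∑ P ∈ T, P.ord f := by
    calc ((T.card : ℕ) : ℤ) = ∑ P ∈ T, (1 : ℤ) := by simp
      _ ≤ ∑ P ∈ T, P.ord f := Finset.sum_le_sum fun P hP => h1 P hP
  rw [hcard] at h3
  push_cast at h3
  linarith

private theorem inv_ne {f : K} (hf : ∀ c : k, f ≠ algebraMap k K c) :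
    ∀ c : k, f⁻¹ ≠ algebraMap k K c := by
  intro c hc
  refine hf c⁻¹ ?_
  rw [map_inv₀, ← hc, inv_inv]

/-- Proof. Constants: `Pt.ord_algebraMap`. Otherwise the zeros: every finite set `T` of zeros has at
most `∑ P ∈ T, P.ord f ≤ [K : k(f)]` elements (`IsCurve.sum_ord_le`), so the set of the zeros is
finite (`Set.infinite_...exists_subset_card_eq`); the poles are the zeros of `f⁻¹`. -/
theorem IsCurve.finite_ord (hK : IsCurve k K) {f : K} (hf : f ≠ 0) :
    {P : Pt k K | P.ord f ≠ 0}.Finite := by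
  by_cases hc : ∃ c : k, f = algebraMap k K c
  · obtain ⟨c, rfl⟩ := hc
    convert Set.finite_empty
    ext P
    simp [P.ord_algebraMap]
  · push Not at hc
    refine ((finite_zeros hK hc).union (finite_zeros hK (inv_ne hc))).subset ?_
    intro P hP
    have hP' : P.ord f ≠ 0 := hP
    simp only [Set.mem_union, Set.mem_ofPred_eq, P.ord_inv]
    omega

theorem IsCurve.dv_apply (hK : IsCurve k K) {f : K} (hf : f ≠ 0) (P : Pt k K) :
    dv k f P = P.ord f := by
  unfold dv
  rw [dif_pos (hK.finite_ord hf)]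
  rfl

theorem IsCurve.dv_mul (hK : IsCurve k K) {f g : K} (hf : f ≠ 0) (hg : g ≠ 0) :
    dv k (f * g) = dv k f + dv k g := by
  ext P
  rw [Finsupp.add_apply, hK.dv_apply (mul_ne_zero hf hg), hK.dv_apply hf, hK.dv_apply hg,
    P.ord_mul hf hg]

theorem IsCurve.dv_inv (hK : IsCurve k K) {f : K} (hf : f ≠ 0) : dv k f⁻¹ = -dv k f := by
  ext P
  rw [Finsupp.neg_apply, hK.dv_apply (inv_ne_zero hf), hK.dv_apply hf, P.ord_inv]

theorem IsCurve.mul_mem_iff (hK : IsCurve k K) {D : Dv k K} {f g : K} (hf : f ≠ 0) :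
    f * g ∈ L D ↔ g ∈ L (D + dv k f) := by
  by_cases hg : g = 0
  · subst hg
    rw [mul_zero]
    exact ⟨fun _ => Submodule.zero_mem _, fun _ => Submodule.zero_mem _⟩
  rw [mem_L_of_ne (mul_ne_zero hf hg), mem_L_of_ne hg]
  refine forall_congr' fun P => ?_
  rw [P.ord_mul hf hg, Finsupp.add_apply, hK.dv_apply hf]
  constructor <;> intro h <;> linarith

/-- Proof. Multiplication by `f` is a linear equivalence from `L (D + dv k f)` to `L D`
(`IsCurve.mul_mem_iff`). -/
theorem IsCurve.ell_add_dv (hK : IsCurve k K) (D : Dv k K) {f : K} (hf : f ≠ 0) :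
    ell (D + dv k f) = ell D := by
  unfold ell
  refine LinearEquiv.finrank_eq ?_
  refine LinearEquiv.ofLinear
    ((LinearMap.mulLeft k f).restrict (p := L (D + dv k f)) (q := L D)
      (fun g hg => (hK.mul_mem_iff hf).2 hg))
    ((LinearMap.mulLeft k f⁻¹).restrict (p := L D) (q := L (D + dv k f))
      (fun g hg => (hK.mul_mem_iff hf).1 ?_)) ?_ ?_
  · show f * (f⁻¹ * g) ∈ L D
    rwa [mul_inv_cancel_left₀ hf]
  · ext g
    show f * (f⁻¹ * (g : K)) = g
    rw [mul_inv_cancel_left₀ hf]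
  · ext g
    show f⁻¹ * (f * (g : K)) = g
    rw [inv_mul_cancel_left₀ hf]

/-- The degree of the pole divisor is a sum over the poles; so it is at most `[K : k(x)]`
(`IsCurve.sum_ord_le` for `x⁻¹`, `adjoin_inv_eq`). -/
theorem IsCurve.deg_poles_le (hK : IsCurve k K) {x : K} (hx : ∀ c : k, x ≠ algebraMap k K c) :
    deg (poles k x) ≤ Module.finrank (IntermediateField.adjoin k {x}) K := by
  have hx0 : x ≠ 0 := by
    intro h
    exact hx 0 (by rw [map_zero]; exact h)
  have hap : ∀ P : Pt k K, poles k x P = max (-P.ord x) 0 := by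
    intro P
    show ((-dv k x) ⊔ 0 : Dv k K) P = _
    rw [Finsupp.sup_apply, Finsupp.neg_apply, hK.dv_apply hx0, Finsupp.zero_apply]
  have h1 : ∀ P ∈ (poles k x).support, 0 < P.ord x⁻¹ := by
    intro P hP
    rw [Finsupp.mem_support_iff, hap] at hP
    rw [P.ord_inv]
    by_contra h
    exact hP (max_eq_right (by linarith))
  have h2 := hK.sum_ord_le (inv_ne hx) h1
  rw [adjoin_inv_eq] at h2
  refine le_trans (le_of_eq ?_) h2
  show (poles k x).sum (fun _ n => n) = _
  unfold Finsupp.sum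
  refine Finset.sum_congr rfl fun P hP => ?_
  have := h1 P hP
  rw [P.ord_inv] at this
  rw [hap, P.ord_inv]
  exact max_eq_left this.le

end Pool.Agent.MPd118f9
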