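import Pool.Agent.Lib.MP_d118f9_ag.C.A2
import Pool.Agent.Lib.MP_d118f9_ag.C.A5

/-!
# MP_d118f9_ag, block C: the spaces `L(D)` are finite dimensional
-/

set_option autoImplicit false

noncomputable section

open Classical

namespace Pool.Agent.MPd118f9

variable {k K : Type} [Field k] [IsAlgClosed k] [CharZero k] [Field K] [Algebra k K]

/-- The only functions without poles are the constants. Proof. `IsCurve.exists_pole`. -/
theorem IsCurve.mem_L_zero (hK : IsCurve k K) {f : K} :
    f ∈ L (0 : Dv k K) ↔ ∃ c : k, f = algebraMap k K c := by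
  constructor
  · rintro (hf | hf)
    · exact ⟨0, by rw [hf, map_zero]⟩
    · by_contra hcon
      push Not at hcon
      obtain ⟨P, hP⟩ := hK.exists_pole hcon
      have h1 := hf P
      have h2 : (0 : Dv k K) P = 0 := rfl
      rw [h2] at h1
      omega
  · rintro ⟨c, rfl⟩
    refine Or.inr fun P => ?_
    have h2 : (0 : Dv k K) P = 0 := rfl
    rw [P.ord_algebraMap, h2]
    norm_num

private theorem a6_L_zero (hK : IsCurve k K) :
    L (0 : Dv k K) = Submodule.span k {(1 : K)} := by
  ext f
  rw [hK.mem_L_zero, Submodule.mem_span_singleton]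
  refine exists_congr fun c => ?_
  rw [Algebra.smul_def, mul_one]
  exact eq_comm

theorem IsCurve.ell_zero (hK : IsCurve k K) : ell (0 : Dv k K) = 1 := by
  unfold ell
  rw [a6_L_zero hK]
  exact finrank_span_singleton one_ne_zero

/-- Proof. If `L (D + P) = L D` take `u = 0`. Otherwise let `u ∈ L (D + P)`, `u ∉ L D`, so
`P.ord u = -(D P) - 1`. For `f ∈ L (D + P)` the quotient `f / u` has order `≥ 0` at `P`, so there is
a constant `c` with `f / u = c` or `P.ord (f / u - c) > 0` (`IsCurve.exists_const`), and
`f - c u ∈ L D`. -/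
theorem IsCurve.exists_span (hK : IsCurve k K) (D : Dv k K) (P : Pt k K) :
    ∃ u : K, L (D + Finsupp.single P 1) ≤ L D ⊔ Submodule.span k {u} := by
  by_cases hle : L (D + Finsupp.single P 1) ≤ L D
  · exact ⟨0, hle.trans le_sup_left⟩
  obtain ⟨u, hu, huD⟩ := Set.not_subset.1 hle
  have hu0 : u ≠ 0 := fun h => huD (by rw [h]; exact (L D).zero_mem)
  have hPP : (D + Finsupp.single P 1 : Dv k K) P = D P + 1 := by
    rw [Finsupp.add_apply, Finsupp.single_eq_same]
  have hQ : ∀ Q, Q ≠ P → (D + Finsupp.single P 1 : Dv k K) Q = D Q := by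
    intro Q hQ
    rw [Finsupp.add_apply, Finsupp.single_eq_of_ne hQ, add_zero]
  have hu' := (mem_L_of_ne hu0).1 hu
  have hup : P.ord u = -D P - 1 := by
    have h1 := hu' P
    rw [hPP] at h1
    by_contra h2
    refine huD ((mem_L_of_ne hu0).2 fun Q => ?_)
    by_cases hQP : Q = P
    · subst hQP
      omega
    · have h3 := hu' Q
      rwa [hQ Q hQP] at h3
  refine ⟨u, fun f hf => ?_⟩
  by_cases hf0 : f = 0
  · rw [hf0]
    exact Submodule.zero_mem _
  have hf' := (mem_L_of_ne hf0).1 hf
  have hfu0 : f / u ≠ 0 := div_ne_zero hf0 hu0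
  have hfu : 0 ≤ P.ord (f / u) := by
    rw [div_eq_mul_inv, P.ord_mul hf0 (inv_ne_zero hu0), P.ord_inv, hup]
    have h1 := hf' P
    rw [hPP] at h1
    omega
  obtain ⟨c, hc⟩ := hK.exists_const P hfu
  have hcu : c • u ∈ Submodule.span k {u} :=
    Submodule.smul_mem _ c (Submodule.mem_span_singleton_self u)
  have hmem : f - c • u ∈ L D := by
    by_cases hz : f - c • u = 0
    · rw [hz]
      exact (L D).zero_mem
    have h1 : f - c • u ∈ L (D + Finsupp.single P 1) :=
      Submodule.sub_mem _ hf (Submodule.smul_mem _ c hu)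
    have h2 := (mem_L_of_ne hz).1 h1
    refine (mem_L_of_ne hz).2 fun Q => ?_
    by_cases hQP : Q = P
    · subst hQP
      have h3 : f - c • u = u * (f / u - algebraMap k K c) := by
        rw [mul_sub, mul_div_cancel₀ _ hu0, Algebra.smul_def, mul_comm u]
      have h4 : f / u - algebraMap k K c ≠ 0 := by
        intro h5
        rw [h5, mul_zero] at h3
        exact hz h3
      rcases hc with hc | hc
      · exact absurd (sub_eq_zero.2 hc) h4
      · rw [h3, Q.ord_mul hu0 h4, hup]
        omega
    · have h3 := h2 Q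
      rwa [hQ Q hQP] at h3
  have h5 : f = (f - c • u) + c • u := by ring
  rw [h5]
  exact Submodule.add_mem_sup hmem hcu

omit [IsAlgClosed k] [CharZero k] in
private theorem a6_induct {p : Dv k K → Prop} {D : Dv k K} (h0 : p D)
    (hs : ∀ (E : Dv k K) (P : Pt k K), D ≤ E → p E → p (E + Finsupp.single P 1)) :
    ∀ D' : Dv k K, D ≤ D' → p D' := by
  have key : ∀ (n : ℕ) (D' : Dv k K), D ≤ D' → (deg D' - deg D).toNat = n → p D' := by
    intro n
    induction n using Nat.strong_induction_on with
    | _ n ih =>
      intro D' hle hn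
      by_cases heq : D' = D
      · rw [heq]
        exact h0
      obtain ⟨P, hP⟩ : ∃ P, D' P ≠ D P := by
        by_contra hcon
        push Not at hcon
        exact heq (Finsupp.ext hcon)
      have hP1 : D P < D' P := lt_of_le_of_ne (hle P) (Ne.symm hP)
      have hE : D ≤ D' - Finsupp.single P 1 := by
        intro Q
        rw [Finsupp.sub_apply]
        by_cases hQP : Q = P
        · subst hQP
          rw [Finsupp.single_eq_same]
          omega
        · rw [Finsupp.single_eq_of_ne hQP, sub_zero]
          exact hle Q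
      have hd : deg (D' - Finsupp.single P 1) = deg D' - 1 := by
        rw [deg_sub, deg_single]
      have hdm := deg_mono hE
      rw [hd] at hdm
      have hlt : (deg (D' - Finsupp.single P 1) - deg D).toNat < n := by
        rw [hd]
        omega
      have h1 := hs _ P hE (ih _ hlt _ hE rfl)
      rwa [sub_add_cancel] at h1
  exact fun D' hle => key _ D' hle rfl

/-- Proof. `L D ≤ L (D ⊔ 0)`, and for effective divisors by induction from `L 0` (the constants)
with `IsCurve.exists_span` (an effective divisor is `0` or `D' + P` with `D'` effective; induction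
on `(deg D).toNat`). -/
theorem IsCurve.finDim (hK : IsCurve k K) (D : Dv k K) : FiniteDimensional k (L D) := by
  have h1 : ∀ D' : Dv k K, 0 ≤ D' → FiniteDimensional k (L D') := by
    refine a6_induct ?_ fun E P _ hE => ?_
    · rw [a6_L_zero hK]
      infer_instance
    · obtain ⟨u, hu⟩ := hK.exists_span E P
      have h2 : FiniteDimensional k (L E ⊔ Submodule.span k {u} : Submodule k K) :=
        Submodule.finiteDimensional_sup _ _
      exact Submodule.finiteDimensional_of_le hu
  have h3 := h1 (D ⊔ 0) le_sup_right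
  exact Submodule.finiteDimensional_of_le (L_mono (le_sup_left : D ≤ D ⊔ 0))

theorem IsCurve.ell_add_single_le (hK : IsCurve k K) (D : Dv k K) (P : Pt k K) :
    ell (D + Finsupp.single P 1) ≤ ell D + 1 := by
  obtain ⟨u, hu⟩ := hK.exists_span D P
  have := hK.finDim D
  have h2 : FiniteDimensional k (L D ⊔ Submodule.span k {u} : Submodule k K) :=
    Submodule.finiteDimensional_sup _ _
  have h3 : Module.finrank k (L (D + Finsupp.single P 1)) ≤
      Module.finrank k (L D ⊔ Submodule.span k {u} : Submodule k K) := Submodule.finrank_mono hu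
  have h4 := Submodule.finrank_add_le_finrank_add_finrank (L D) (Submodule.span k {u})
  have h5 : Module.finrank k (Submodule.span k {u}) ≤ 1 := by
    refine (finrank_span_le_card ({u} : Set K)).trans ?_
    simp
  unfold ell
  omega

theorem IsCurve.ell_mono (hK : IsCurve k K) {D D' : Dv k K} (h : D ≤ D') : ell D ≤ ell D' := by
  have := hK.finDim D'
  exact Submodule.finrank_mono (L_mono h)

/-- Proof. Induction on `(deg (D' - D)).toNat` with `IsCurve.ell_add_single_le`. -/
theorem IsCurve.ell_le_add (hK : IsCurve k K) {D D' : Dv k K} (h : D ≤ D') :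
    (ell D' : ℤ) ≤ ell D + (deg D' - deg D) := by
  refine a6_induct (p := fun E => (ell E : ℤ) ≤ ell D + (deg E - deg D)) ?_ ?_ D' h
  · show (ell D : ℤ) ≤ ell D + (deg D - deg D)
    omega
  · intro E P _ hE
    have h1 := hK.ell_add_single_le E P
    have hE' : (ell E : ℤ) ≤ ell D + (deg E - deg D) := hE
    show (ell (E + Finsupp.single P 1) : ℤ) ≤ ell D + (deg (E + Finsupp.single P 1) - deg D)
    rw [deg_add, deg_single]
    have h2 : (ell (E + Finsupp.single P 1) : ℤ) ≤ ell E + 1 := by exact_mod_cast h1
    linarith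

end Pool.Agent.MPd118f9
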