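import Pool.Agent.Lib.MP_d118f9_ag.C.A6

/-!
# MP_d118f9_ag, block C: the degree of a principal divisor is zero
-/

set_option autoImplicit false

noncomputable section

open Classical

namespace Pool.Agent.MPd118f9

variable {k K : Type} [Field k] [IsAlgClosed k] [CharZero k] [Field K] [Algebra k K]

omit [IsAlgClosed k] [CharZero k] in
private theorem A7_mem_of_integral {x y : K} (P : Pt k K) (hx : x ∈ P.1)
    (hy : IsIntegral (Algebra.adjoin k {x}) y) : y ∈ P.1 := by
  have hle : ∀ z ∈ Algebra.adjoin k {x}, z ∈ P.1 := by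
    intro z hz
    induction hz using Algebra.adjoin_induction with
    | mem z hz =>
      rw [Set.mem_singleton_iff] at hz
      rw [hz]
      exact hx
    | algebraMap c => exact P.2.1 c
    | add z w _ _ h1 h2 => exact P.1.add_mem _ _ h1 h2
    | mul z w _ _ h1 h2 => exact P.1.mul_mem _ _ h1 h2
  have := P.2.2
  obtain ⟨p, hp, hp2⟩ := hy
  let φ : Algebra.adjoin k {x} →+* P.1 :=
    { toFun := fun z => ⟨z.1, hle z.1 z.2⟩
      map_one' := rfl
      map_mul' := fun _ _ => rfl
      map_zero' := rfl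
      map_add' := fun _ _ => rfl }
  have h1 : IsIntegral P.1 y := by
    refine ⟨p.map φ, hp.map φ, ?_⟩
    rw [Polynomial.eval₂_map]
    exact hp2
  obtain ⟨z, hz⟩ := IsIntegrallyClosed.isIntegral_iff.1 h1
  rw [← hz]
  exact z.2

omit [IsAlgClosed k] [CharZero k] in
private theorem A7_ne_zero {x : K} (hx : ∀ c : k, x ≠ algebraMap k K c) : x ≠ 0 := by
  intro h
  exact hx 0 (by rw [h, map_zero])

private theorem A7_poles (hK : IsCurve k K) {x : K} (hx : x ≠ 0) (P : Pt k K) :
    poles k x P = max (-P.ord x) 0 := by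
  unfold poles
  rw [Finsupp.sup_apply, Finsupp.neg_apply, hK.dv_apply hx]
  rfl

omit [IsAlgClosed k] [CharZero k] in
private theorem A7_poles_nonneg (x : K) : 0 ≤ poles k x := le_sup_right

/-- Proof. Let `P.ord x ≥ 0`. The valuation ring of `P` contains `k[x]` and is integrally closed, so
it contains `y`. So the poles of `y` are poles of `x`, and they are finitely many
(`IsCurve.finite_ord`); `poles k x` is at least `1` at these points (`IsCurve.dv_apply`). -/
theorem IsCurve.exists_mem_nsmul (hK : IsCurve k K) {x y : K}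
    (hx : ∀ c : k, x ≠ algebraMap k K c) (hy : IsIntegral (Algebra.adjoin k {x}) y) :
    ∃ m : ℕ, y ∈ L (m • poles k x) := by
  have hx0 := A7_ne_zero hx
  by_cases hy0 : y = 0
  · exact ⟨0, by rw [hy0]; exact Submodule.zero_mem _⟩
  have hf := hK.finite_ord hy0
  refine ⟨∑ P ∈ hf.toFinset, (P.ord y).natAbs, (mem_L_of_ne hy0).2 fun P => ?_⟩
  rw [Finsupp.smul_apply, A7_poles hK hx0, nsmul_eq_mul]
  rcases le_or_gt 0 (P.ord y) with h | h
  · have h1 : (0 : ℤ) ≤ ((∑ P ∈ hf.toFinset, (P.ord y).natAbs : ℕ) : ℤ) * max (-P.ord x) 0 :=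
      mul_nonneg (Int.natCast_nonneg _) (le_max_right _ _)
    linarith
  · have h1 : P.ord x < 0 := by
      by_contra hc
      rw [not_lt] at hc
      have h2 := A7_mem_of_integral P ((P.mem_iff hx0).2 hc) hy
      have h3 := (P.mem_iff hy0).1 h2
      linarith
    have h2 : P ∈ hf.toFinset := by
      rw [Set.Finite.mem_toFinset]
      exact h.ne
    have h3 : (P.ord y).natAbs ≤ ∑ P ∈ hf.toFinset, (P.ord y).natAbs :=
      Finset.single_le_sum (f := fun P : Pt k K => (P.ord y).natAbs)
        (fun _ _ => Nat.zero_le _) h2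
    have h4 : (1 : ℤ) ≤ max (-P.ord x) 0 := le_max_of_le_left (by linarith)
    have h5 : ((P.ord y).natAbs : ℤ) ≤ ((∑ P ∈ hf.toFinset, (P.ord y).natAbs : ℕ) : ℤ) := by
      exact_mod_cast h3
    have h6 : ((P.ord y).natAbs : ℤ) = -P.ord y := by
      rw [Int.natCast_natAbs, abs_of_neg h]
    have h7 : ((∑ P ∈ hf.toFinset, (P.ord y).natAbs : ℕ) : ℤ) * 1 ≤
        ((∑ P ∈ hf.toFinset, (P.ord y).natAbs : ℕ) : ℤ) * max (-P.ord x) 0 :=
      mul_le_mul_of_nonneg_left h4 (Int.natCast_nonneg _)
    linarith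

/-- the generator of `k(x)` -/
private def A7_gen (k : Type) {K : Type} [Field k] [Field K] [Algebra k K] (x : K) :
    IntermediateField.adjoin k {x} := ⟨x, IntermediateField.mem_adjoin_simple_self k x⟩

omit [CharZero k] in
private theorem A7_indep_pow {x : K} (hx : ∀ c : k, x ≠ algebraMap k K c) :
    LinearIndependent k (fun i : ℕ => A7_gen k x ^ i) := by
  have ht := transcendental_of_ne hx
  have hinj : Function.Injective (Polynomial.aeval (R := k) (A7_gen k x)) := by
    intro p q hpq
    have h1 := congrArg (fun z : IntermediateField.adjoin k {x} => (z : K)) hpq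
    have h2 : ∀ r : Polynomial k, ((Polynomial.aeval (A7_gen k x) r :
        IntermediateField.adjoin k {x}) : K) = Polynomial.aeval x r := by
      intro r
      exact (Polynomial.aeval_algHom_apply (IntermediateField.adjoin k {x}).val
        (A7_gen k x) r).symm
    simp only [h2] at h1
    exact transcendental_iff_injective.1 ht h1
  have h1 := (Polynomial.basisMonomials k).linearIndependent.map'
    (Polynomial.aeval (R := k) (A7_gen k x)).toLinearMap (LinearMap.ker_eq_bot.2 hinj)
  have h2 : (fun i : ℕ => A7_gen k x ^ i) =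
      (Polynomial.aeval (R := k) (A7_gen k x)).toLinearMap ∘ (Polynomial.basisMonomials k) := by
    funext i
    simp [Polynomial.aeval_monomial]
  rw [h2]
  exact h1

open scoped IntermediateField.algebraAdjoinAdjoin in
private theorem A7_basis (hK : IsCurve k K) {x : K} (hx : ∀ c : k, x ≠ algebraMap k K c) :
    ∃ y : Fin (Module.finrank (IntermediateField.adjoin k {x}) K) → K,
      LinearIndependent (IntermediateField.adjoin k {x}) y ∧
      ∀ j, IsIntegral (Algebra.adjoin k {x}) (y j) := by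
  have hfd := hK.finDim_adjoin hx
  have hb := Module.finBasis (IntermediateField.adjoin k {x}) K
  have halg : Algebra.IsAlgebraic (Algebra.adjoin k {x}) K :=
    Algebra.IsAlgebraic.trans (Algebra.adjoin k {x}) (IntermediateField.adjoin k {x}) K
  choose a ha0 ha using fun j =>
    (Algebra.IsAlgebraic.isAlgebraic (R := Algebra.adjoin k {x}) (hb j)).exists_integral_multiple
  refine ⟨fun j => a j • hb j, ?_, ha⟩
  have hne : ∀ j, algebraMap (Algebra.adjoin k {x}) (IntermediateField.adjoin k {x}) (a j) ≠ 0 :=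
    fun j => (map_ne_zero_iff _ (FaithfulSMul.algebraMap_injective _ _)).2 (ha0 j)
  have h1 := hb.linearIndependent.units_smul fun j => Units.mk0 _ (hne j)
  have h2 : (fun j => a j • hb j) = (fun j => Units.mk0 _ (hne j)) • (hb : _ → K) := by
    funext j
    rw [Pi.smul_apply', Units.smul_mk0]
    exact (algebraMap_smul (IntermediateField.adjoin k {x}) (a j) (hb j)).symm
  rw [h2]
  exact h1

private theorem A7_pow_mem (hK : IsCurve k K) {x : K} (hx0 : x ≠ 0) (i : ℕ) :
    x ^ i ∈ L (i • poles k x) := by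
  refine (mem_L_of_ne (pow_ne_zero i hx0)).2 fun P => ?_
  rw [Finsupp.smul_apply, A7_poles hK hx0, nsmul_eq_mul, P.ord_pow]
  have h1 : -P.ord x ≤ max (-P.ord x) 0 := le_max_left _ _
  have h2 := mul_le_mul_of_nonneg_left h1 (Int.natCast_nonneg i)
  linarith

/-- Proof. Let `n = [K : k(x)]` and `y_1, …, y_n` a basis of `K / k(x)` of elements integral over
`k[x]` (`IsFractionRing`, `exists_integral_multiple`; multiply the elements of any basis by
denominators). They are in `L(m₀ E)`, `E = poles k x` (`IsCurve.exists_mem_nsmul`), and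
`x ^ i ∈ L(i E)`. So the `n (m + 1)` elements `x ^ i y_j`, `i ≤ m`, are in `L((m + m₀) E)`, and they
are linearly independent over `k` (`x` is transcendental: the powers of `x` are independent over
`k`, the `y_j` over `k(x)`; `LinearIndependent.smul` / tower argument, or: a relation is
`∑ j, p_j(x) y_j = 0`). -/
theorem IsCurve.mul_le_ell (hK : IsCurve k K) {x : K} (hx : ∀ c : k, x ≠ algebraMap k K c) :
    ∃ m₀ : ℕ, ∀ m : ℕ, Module.finrank (IntermediateField.adjoin k {x}) K * (m + 1) ≤
      ell ((m + m₀) • poles k x) := by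
  have hx0 := A7_ne_zero hx
  have hE := A7_poles_nonneg (k := k) x
  obtain ⟨y, hy, hint⟩ := A7_basis hK hx
  choose mj hmj using fun j => hK.exists_mem_nsmul hx (hint j)
  refine ⟨∑ j, mj j, fun m => ?_⟩
  have hfin := hK.finDim ((m + ∑ j, mj j) • poles k x)
  have hmono : ∀ {a b : ℕ}, a ≤ b → L (a • poles k x) ≤ L (b • poles k x) := fun hab =>
    L_mono (nsmul_le_nsmul_left hE hab)
  have hmem : ∀ q : Fin (m + 1) × Fin (Module.finrank (IntermediateField.adjoin k {x}) K),
      x ^ (q.1 : ℕ) * y q.2 ∈ L ((m + ∑ j, mj j) • poles k x) := by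
    intro q
    have h1 := A7_pow_mem hK hx0 (q.1 : ℕ)
    have h2 := mul_mem_L h1 (hmj q.2)
    rw [← add_nsmul] at h2
    refine hmono ?_ h2
    have h3 : mj q.2 ≤ ∑ j, mj j :=
      Finset.single_le_sum (fun _ _ => Nat.zero_le _) (Finset.mem_univ q.2)
    have h4 := q.1.2
    omega
  have hli : LinearIndependent k
      (fun q : ℕ × Fin (Module.finrank (IntermediateField.adjoin k {x}) K) =>
        A7_gen k x ^ q.1 • y q.2) := linearIndependent_smul (A7_indep_pow hx) hy
  have hli2 : LinearIndependent k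
      (fun q : Fin (m + 1) × Fin (Module.finrank (IntermediateField.adjoin k {x}) K) =>
        x ^ (q.1 : ℕ) * y q.2) := by
    have h1 := hli.comp (fun q : Fin (m + 1) ×
      Fin (Module.finrank (IntermediateField.adjoin k {x}) K) => ((q.1 : ℕ), q.2)) (by
        intro q q' h
        rw [Prod.mk.injEq] at h
        exact Prod.ext (Fin.ext h.1) h.2)
    exact h1
  have hli3 : LinearIndependent k
      (fun q : Fin (m + 1) × Fin (Module.finrank (IntermediateField.adjoin k {x}) K) =>
        (⟨x ^ (q.1 : ℕ) * y q.2, hmem q⟩ : L ((m + ∑ j, mj j) • poles k x))) :=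
    LinearIndependent.of_comp (L ((m + ∑ j, mj j) • poles k x)).subtype hli2
  have h5 := hli3.fintype_card_le_finrank
  rw [Fintype.card_prod, Fintype.card_fin, Fintype.card_fin, mul_comm] at h5
  exact h5

/-- Proof. `≤`: `IsCurve.deg_poles_le`. `≥`: `n (m + 1) ≤ ell ((m + m₀) E) ≤ 1 + (m + m₀) deg E`
(`IsCurve.mul_le_ell`, `IsCurve.ell_le_add` for `0 ≤ (m + m₀) E`, `IsCurve.ell_zero`) for all `m`,
so `n ≤ deg E`. -/
theorem IsCurve.deg_poles (hK : IsCurve k K) {x : K} (hx : ∀ c : k, x ≠ algebraMap k K c) :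
    deg (poles k x) = Module.finrank (IntermediateField.adjoin k {x}) K := by
  refine le_antisymm (hK.deg_poles_le hx) ?_
  obtain ⟨m₀, hm⟩ := hK.mul_le_ell hx
  by_contra hc
  rw [not_le] at hc
  obtain ⟨d, hd⟩ : ∃ d : ℤ, d = deg (poles k x) := ⟨_, rfl⟩
  obtain ⟨n, hn⟩ : ∃ n : ℕ, n = Module.finrank (IntermediateField.adjoin k {x}) K := ⟨_, rfl⟩
  rw [← hd, ← hn] at hc
  have h1 := hm (1 + m₀ * n)
  rw [← hn] at h1
  have h2 := hK.ell_le_add (D := 0) (D' := (1 + m₀ * n + m₀) • poles k x)
    (nsmul_nonneg (A7_poles_nonneg x) _)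
  rw [hK.ell_zero, deg_zero, deg_nsmul, ← hd] at h2
  have h3 : ((n * (1 + m₀ * n + 1) : ℕ) : ℤ) ≤
      ((ell ((1 + m₀ * n + m₀) • poles k x) : ℕ) : ℤ) := by exact_mod_cast h1
  push_cast at h3 h2
  have h4 : (1 + (m₀ : ℤ) * n + m₀) * d ≤ (1 + (m₀ : ℤ) * n + m₀) * (n - 1) :=
    mul_le_mul_of_nonneg_left (by omega) (by positivity)
  have hfd := hK.finDim_adjoin hx
  have h5 : 0 < n := by
    rw [hn]
    exact Module.finrank_pos
  have h6 : (0 : ℤ) < n := by exact_mod_cast h5
  have h7 : (0 : ℤ) ≤ m₀ := Int.natCast_nonneg _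
  have h8 : (1 + (m₀ : ℤ) * n + m₀) * (n - 1) = n + m₀ * n * n - m₀ - 1 := by ring
  have h9 : (n : ℤ) * (1 + m₀ * n + 1) = 2 * n + m₀ * n * n := by ring
  linarith

private theorem A7_dv_const (hK : IsCurve k K) {c : k} (hc : algebraMap k K c ≠ 0) :
    dv k (algebraMap k K c) = 0 := by
  refine Finsupp.ext fun P => ?_
  rw [hK.dv_apply hc, P.ord_algebraMap]
  rfl

/-- Proof. Constants: `dv = 0`. Otherwise `dv k f = poles k f⁻¹ - poles k f`
(`IsCurve.dv_inv`, `a = a⁺ - a⁻`), and `IsCurve.deg_poles` for `f` and `f⁻¹`, `adjoin_inv_eq`. -/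
theorem IsCurve.deg_dv (hK : IsCurve k K) {f : K} (hf : f ≠ 0) : deg (dv k f) = 0 := by
  by_cases h : ∃ c : k, f = algebraMap k K c
  · obtain ⟨c, rfl⟩ := h
    rw [A7_dv_const hK hf, deg_zero]
  · push Not at h
    have h' : ∀ c : k, f⁻¹ ≠ algebraMap k K c := by
      intro c hc
      exact h c⁻¹ (by rw [map_inv₀, ← hc, inv_inv])
    have h1 : dv k f = poles k f⁻¹ - poles k f := by
      refine Finsupp.ext fun P => ?_
      rw [Finsupp.sub_apply, A7_poles hK (inv_ne_zero hf), A7_poles hK hf, hK.dv_apply hf,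
        P.ord_inv, neg_neg]
      rcases le_total (P.ord f) 0 with h2 | h2
      · rw [max_eq_right h2, max_eq_left (by linarith)]
        ring
      · rw [max_eq_left h2, max_eq_right (by linarith)]
        ring
    rw [h1, deg_sub, hK.deg_poles h, hK.deg_poles h', adjoin_inv_eq, sub_self]

/-- A nonconstant function has a pole. Proof. `IsCurve.deg_poles`, `Module.finrank_pos`. -/
theorem IsCurve.deg_poles_pos (hK : IsCurve k K) {z : K} (hz : ∀ c : k, z ≠ algebraMap k K c) :
    0 < deg (poles k z) := by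
  have hfd := hK.finDim_adjoin hz
  rw [hK.deg_poles hz]
  exact_mod_cast Module.finrank_pos

/-- Proof. If `f ≠ 0` is in `L(D)` then `-D ≤ dv k f`, so `-deg D ≤ 0`. -/
theorem IsCurve.ell_of_deg_neg (hK : IsCurve k K) {D : Dv k K} (h : deg D < 0) : ell D = 0 := by
  have h1 : L D = ⊥ := by
    rw [eq_bot_iff]
    intro f hf
    rw [Submodule.mem_bot]
    by_contra hf0
    have h2 : -D ≤ dv k f := by
      intro P
      rw [hK.dv_apply hf0]
      exact (mem_L_of_ne hf0).1 hf P
    have h3 := deg_mono h2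
    rw [deg_neg, hK.deg_dv hf0] at h3
    linarith
  unfold ell
  rw [h1]
  exact finrank_bot k K

end Pool.Agent.MPd118f9
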