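import Pool.Agent.Lib.MP_d118f9_ag.C.A7

/-!
# MP_d118f9_ag, block C: the theorem of Riemann
-/

set_option autoImplicit false

noncomputable section

open Classical

namespace Pool.Agent.MPd118f9

variable {k K : Type} [Field k] [IsAlgClosed k] [CharZero k] [Field K] [Algebra k K]

private theorem A8_exists (hK : IsCurve k K) {D D' : Dv k K} (h : 0 < ell (D' - D)) :
    ∃ f : K, f ≠ 0 ∧ D ≤ D' + dv k f := by
  have h1 : L (D' - D) ≠ ⊥ := by
    intro h2
    unfold ell at h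
    rw [h2, finrank_bot] at h
    exact lt_irrefl _ h
  obtain ⟨f, hf, hf0⟩ := Submodule.exists_mem_ne_zero_of_ne_bot h1
  refine ⟨f, hf0, fun P => ?_⟩
  have h3 := (mem_L_of_ne hf0).1 hf P
  rw [Finsupp.sub_apply] at h3
  show D P ≤ (D' + dv k f) P
  rw [Finsupp.add_apply, hK.dv_apply hf0]
  linarith

private theorem A8_le (hK : IsCurve k K) {D D' : Dv k K} (h : 0 < ell (D' - D)) :
    deg D - ell D ≤ deg D' - ell D' := by
  obtain ⟨f, hf0, hf⟩ := A8_exists hK h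
  have h1 := hK.ell_le_add hf
  rw [hK.ell_add_dv D' hf0, deg_add, hK.deg_dv hf0] at h1
  linarith

/-- Proof. Let `x` be nonconstant, `E = poles k x`, `n = deg E > 0`. By `IsCurve.mul_le_ell`
`deg (m E) + 1 - ell (m E) ≤ n m₀ + 1` for all `m ≥ m₀`. For a divisor `D` let `D⁺ = D ⊔ 0`. For
large `m` one has `ell (m E - D⁺) ≥ ell (m E) - deg D⁺ > 0` (`IsCurve.ell_le_add`), so there is
`f ≠ 0` in `L(m E - D⁺)`, that is `D⁺ ≤ m E + dv k f`. `deg - ell` is monotone
(`IsCurve.ell_le_add`) and invariant under the addition of `dv k f` (`IsCurve.ell_add_dv`,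
`IsCurve.deg_dv`), so `deg D - ell D ≤ deg (m E + dv k f) - ell (m E + dv k f) =
deg (m E) - ell (m E)`. -/
theorem IsCurve.exists_bound (hK : IsCurve k K) :
    ∃ γ : ℤ, ∀ D : Dv k K, deg D + 1 - ell D ≤ γ := by
  obtain ⟨x, hx⟩ := hK.exists_ne
  obtain ⟨m₀, hm⟩ := hK.mul_le_ell hx
  have hdeg := hK.deg_poles hx
  have hpos := hK.deg_poles_pos hx
  set n : ℕ := Module.finrank (IntermediateField.adjoin k {x}) K with hn
  refine ⟨n * m₀ + 1, fun D => ?_⟩
  have h0 : (0 : Dv k K) ≤ D ⊔ 0 := le_sup_right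
  obtain ⟨m, hmD⟩ : ∃ m : ℕ, deg (D ⊔ 0) ≤ m := ⟨(deg (D ⊔ 0)).toNat, Int.self_le_toNat _⟩
  have h1 : (n : ℤ) * (m + 1) ≤ ell ((m + m₀) • poles k x) := by exact_mod_cast hm m
  have h2 : (m + m₀) • poles k x - D ⊔ 0 ≤ (m + m₀) • poles k x := sub_le_self _ h0
  have h3 := hK.ell_le_add h2
  have h4 : deg ((m + m₀) • poles k x) = ((m : ℤ) + m₀) * n := by
    rw [deg_nsmul, hdeg]
    push_cast
    ring
  rw [deg_sub] at h3
  have h5 : (m : ℤ) + 1 ≤ n * (m + 1) := by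
    have h6 : (1 : ℤ) ≤ n := by omega
    nlinarith
  have h7 : 0 < ell ((m + m₀) • poles k x - D ⊔ 0) := by
    have h8 : (0 : ℤ) < ell ((m + m₀) • poles k x - D ⊔ 0) := by linarith
    exact_mod_cast h8
  have h9 := A8_le hK h7
  have h10 : (ell (D ⊔ 0) : ℤ) ≤ ell D + (deg (D ⊔ 0) - deg D) := hK.ell_le_add le_sup_left
  rw [h4] at h9
  have h11 : ((m : ℤ) + m₀) * n = n * (m + 1) + n * m₀ - n := by ring
  have h12 : (0 : ℤ) ≤ n := by positivity
  linarith

/-- Riemann's inequality. Proof. The set in the definition of `genus` is bounded above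
(`IsCurve.exists_bound`) and contains `0` (for `D = 0`), `le_csSup`; if `deg D + 1 - ell D < 0`
nothing is to be proved. -/
theorem IsCurve.le_ell (hK : IsCurve k K) (D : Dv k K) :
    deg D + 1 - genus k K ≤ (ell D : ℤ) := by
  obtain ⟨γ, hγ⟩ := hK.exists_bound
  by_cases h : deg D + 1 - ell D < 0
  · have h1 : (0 : ℤ) ≤ genus k K := by positivity
    linarith
  · rw [not_lt] at h
    have h1 : (deg D + 1 - ell D).toNat ≤ genus k K := by
      refine le_csSup ⟨γ.toNat, ?_⟩ ⟨D, Int.toNat_of_nonneg h⟩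
      rintro n ⟨D', hD'⟩
      have h2 := hγ D'
      rw [← hD'] at h2
      omega
    have h2 : deg D + 1 - ell D ≤ genus k K := by
      rw [← Int.toNat_of_nonneg h]
      exact_mod_cast h1
    linarith

/-- The genus is attained. Proof. `Nat.sSup_mem`. -/
theorem IsCurve.exists_genus (hK : IsCurve k K) :
    ∃ D : Dv k K, (genus k K : ℤ) = deg D + 1 - ell D := by
  obtain ⟨γ, hγ⟩ := hK.exists_bound
  refine Nat.sSup_mem (s := {n : ℕ | ∃ D : Dv k K, (n : ℤ) = deg D + 1 - ell D}) ?_ ?_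
  · refine ⟨0, 0, ?_⟩
    rw [deg_zero, hK.ell_zero]
    norm_num
  · refine ⟨γ.toNat, ?_⟩
    rintro n ⟨D', hD'⟩
    have h2 := hγ D'
    rw [← hD'] at h2
    omega

/-- Riemann's theorem. Proof. Let `D₀` be as in `IsCurve.exists_genus`, `c₀ = deg D₀ + genus`. For
`deg D ≥ c₀` we have `ell (D - D₀) ≥ 1` (`IsCurve.le_ell`), so there is `f ≠ 0` with
`D₀ ≤ D + dv k f`, and `deg D + 1 - ell D = deg (D + dv k f) + 1 - ell (D + dv k f) ≥
deg D₀ + 1 - ell D₀ = genus` (`IsCurve.ell_le_add`). -/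
theorem IsCurve.riemann (hK : IsCurve k K) :
    ∃ c₀ : ℤ, ∀ D : Dv k K, c₀ ≤ deg D → (ell D : ℤ) = deg D + 1 - genus k K := by
  obtain ⟨D₀, hD₀⟩ := hK.exists_genus
  refine ⟨deg D₀ + genus k K, fun D hD => ?_⟩
  have h1 := hK.le_ell (D - D₀)
  rw [deg_sub] at h1
  have h2 : 0 < ell (D - D₀) := by
    have h3 : (0 : ℤ) < ell (D - D₀) := by linarith
    exact_mod_cast h3
  have h3 := A8_le hK h2
  have h4 := hK.le_ell D
  linarith

end Pool.Agent.MPd118f9
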