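import Pool.Agent.Lib.MP_d118f9_ag.C.A2

/-!
# MP_d118f9_ag, block C: there are infinitely many points
-/

set_option autoImplicit false

noncomputable section

open Classical

namespace Pool.Agent.MPd118f9

variable {k K : Type} [Field k] [IsAlgClosed k] [CharZero k] [Field K] [Algebra k K]

/-- The zeros of `z - c`, `c` a constant, are different points. -/
theorem IsCurve.infinite_pt (hK : IsCurve k K) : Infinite (Pt k K) := by
  obtain ⟨z, hz⟩ := hK.exists_ne
  have h1 : ∀ c : k, ∃ P : Pt k K, 0 < P.ord (z - algebraMap k K c) := fun c =>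
    hK.exists_zero (x := z - algebraMap k K c) (fun c' h => hz (c' + c) (by
      rw [map_add, ← h, sub_add_cancel]))
  choose P hP using h1
  haveI : Infinite k := inferInstance
  refine Infinite.of_injective P fun c c' hcc => ?_
  by_contra hne
  have e0 : (P c).ord (0 : K) = 0 := MP9a7843.ord_zero
  have h2 : (z - algebraMap k K c) ≠ 0 := by
    intro h
    have := hP c
    rw [h, e0] at this
    exact lt_irrefl _ this
  have h3 : 0 < (P c).ord (z - algebraMap k K c') := by
    rw [hcc]
    exact hP c'
  have h4 : (z - algebraMap k K c') ≠ 0 := by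
    intro h
    rw [h, e0] at h3
    exact lt_irrefl _ h3
  have e1 : (z - algebraMap k K c) + -(z - algebraMap k K c') = algebraMap k K (c' - c) := by
    rw [map_sub]
    ring
  have h5 : algebraMap k K (c' - c) ≠ 0 :=
    (map_ne_zero_iff _ (algebraMap k K).injective).2 (sub_ne_zero.2 fun h => hne h.symm)
  have h6 := (P c).le_ord_add h2 (neg_ne_zero.2 h4) (by rw [e1]; exact h5) (n := 1) (hP c)
    (by rw [Pt.ord_neg]; exact h3)
  rw [e1, Pt.ord_algebraMap] at h6
  omega

end Pool.Agent.MPd118f9
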