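import Pool.Agent.Lib.MP_d118f9_ag.B.Good
import Pool.Agent.Lib.MP_d118f9_ag.B.Pencil

/-!
# MP_d118f9_ag, block C: the affine rings, by pencils
-/

set_option autoImplicit false

noncomputable section

open Classical

namespace Pool.Agent.MPd118f9

variable {k K : Type} [Field k] [IsAlgClosed k] [CharZero k] [Field K] [Algebra k K]

theorem neC_zero {z : K} (hz : ∀ c : k, z ≠ algebraMap k K c) : z ≠ 0 := by
  intro h
  exact hz 0 (by rw [map_zero]; exact h)

theorem polesC_nonneg (z : K) : 0 ≤ poles k z := le_sup_right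

theorem polesC_apply (hK : IsCurve k K) {z : K} (hz : z ≠ 0) (P : Pt k K) :
    poles k z P = max (-P.ord z) 0 := by
  show ((-dv k z) ⊔ 0) P = _
  rw [Finsupp.sup_apply, Finsupp.neg_apply, hK.dv_apply hz]
  rfl

theorem polesC_eq_zero (hK : IsCurve k K) {z : K} (hz : z ≠ 0) {P : Pt k K} (hP : 0 ≤ P.ord z) :
    poles k z P = 0 := by
  rw [polesC_apply hK hz]
  exact max_eq_right (by omega)

/-- `b_D` is the union of the `L(D + m E)`. -/
theorem mem_bz_iff' (hK : IsCurve k K) {z : K} (hz : ∀ c : k, z ≠ algebraMap k K c)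
    (D : Dv k K) (f : K) : f ∈ bz z D ↔ ∃ m : ℕ, f ∈ L (D + m • poles k z) := by
  have hz0 := neC_zero hz
  constructor
  · intro h
    rcases mem_bz.1 h with h0 | h
    · exact ⟨0, by rw [h0]; exact Submodule.zero_mem _⟩
    · by_cases hf : f = 0
      · exact ⟨0, by rw [hf]; exact Submodule.zero_mem _⟩
      refine ⟨∑ P ∈ (poles k z).support, (D P + P.ord f).natAbs, ?_⟩
      rw [mem_L_of_ne hf]
      intro P
      rw [Finsupp.add_apply, Finsupp.smul_apply]
      by_cases hP : P ∈ (poles k z).support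
      · have h1 : (D P + P.ord f).natAbs ≤
            ∑ P ∈ (poles k z).support, (D P + P.ord f).natAbs :=
          Finset.single_le_sum (f := fun P => (D P + P.ord f).natAbs)
            (fun _ _ => Nat.zero_le _) hP
        have h2 : 0 ≤ poles k z P := polesC_nonneg (k := k) z P
        have h3 : poles k z P ≠ 0 := Finsupp.mem_support_iff.1 hP
        have h4 : (1 : ℤ) ≤ poles k z P := by omega
        rw [nsmul_eq_mul]
        have h5 : ((D P + P.ord f).natAbs : ℤ) ≤
            ((∑ P ∈ (poles k z).support, (D P + P.ord f).natAbs : ℕ) : ℤ) := by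
          exact_mod_cast h1
        have h6 : -((D P + P.ord f).natAbs : ℤ) ≤ D P + P.ord f := by omega
        have h7 : (0 : ℤ) ≤
            ((∑ P ∈ (poles k z).support, (D P + P.ord f).natAbs : ℕ) : ℤ) := by positivity
        nlinarith
      · have h1 : poles k z P = 0 := Finsupp.notMem_support_iff.1 hP
        rw [h1, smul_zero, add_zero]
        refine h P ?_
        rw [polesC_apply hK hz0] at h1
        have := le_max_left (-P.ord z) 0
        omega
  · rintro ⟨m, h⟩
    rcases mem_L.1 h with h0 | h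
    · exact Or.inl h0
    · refine mem_bz.2 (Or.inr fun P hP => ?_)
      have h1 := h P
      rw [Finsupp.add_apply, Finsupp.smul_apply, polesC_eq_zero hK hz0 hP, smul_zero,
        add_zero] at h1
      exact h1

/-- One more pole is a product with `z`. -/
theorem exists_step (hK : IsCurve k K) {z : K} (hz : ∀ c : k, z ≠ algebraMap k K c)
    (D : Dv k K) : ∃ m₀ : ℕ, ∀ m ≥ m₀, ∀ f ∈ L (D + (m + 1) • poles k z),
      ∃ g ∈ L (D + m • poles k z), ∃ h ∈ L (D + m • poles k z), f = g + z * h := by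
  have hz0 := neC_zero hz
  obtain ⟨a₀, ha⟩ := hK.exists_isGood
  have hpos := hK.deg_poles_pos hz
  refine ⟨(a₀ + deg (poles k z) - deg D).toNat, fun m hm f hf => ?_⟩
  have hm' : a₀ + deg (poles k z) - deg D ≤ m := by
    have := Int.self_le_toNat (a₀ + deg (poles k z) - deg D)
    have h2 : ((a₀ + deg (poles k z) - deg D).toNat : ℤ) ≤ m := by exact_mod_cast hm
    linarith
  have h1 : a₀ + deg (poles k z) ≤ deg (D + m • poles k z) := by
    rw [deg_add, deg_nsmul]
    nlinarith
  have hz1 : z ∈ L (poles k z) := by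
    rw [mem_L_of_ne hz0]
    intro P
    rw [polesC_apply hK hz0]
    have := le_max_left (-P.ord z) 0
    omega
  obtain ⟨g₁, hg₁, g₂, hg₂, h⟩ := (hK.isBdl_L ha).pencil_surj hK (A := poles k z)
    (B := D + m • poles k z) hpos.le h1 (u₁ := 1) (u₂ := z)
    (one_mem_L (polesC_nonneg z)) hz1 one_ne_zero hz0 (hK.pencil_one hz0) (v := f) (by
      have e : D + m • poles k z + poles k z = D + (m + 1) • poles k z := by
        rw [succ_nsmul, add_assoc]
      show f ∈ L _
      rw [e]
      exact hf)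
  refine ⟨g₁, hg₁, g₂, hg₂, ?_⟩
  rw [h, one_smul]
  rfl

theorem z_mem_Rz (z : K) : z ∈ Rz k z := fun _ hP => hP

theorem mem_Rz_iff_bz {z f : K} : f ∈ Rz k z ↔ f ∈ bz z (0 : Dv k K) := by
  rw [mem_Rz, mem_bz]
  constructor
  · intro h
    right
    intro P hP
    rw [Finsupp.coe_zero, Pi.zero_apply, neg_zero]
    exact h P hP
  · rintro (h | h) P hP
    · rw [h]
      exact (MP9a7843.ord_zero (A := P.1)).ge
    · have := h P hP
      rwa [Finsupp.coe_zero, Pi.zero_apply, neg_zero] at this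

theorem L_nsmul_mono (D : Dv k K) (z : K) {m m' : ℕ} (h : m ≤ m') :
    L (D + m • poles k z) ≤ L (D + m' • poles k z) := by
  refine L_mono (add_le_add le_rfl ?_)
  exact nsmul_le_nsmul_left (polesC_nonneg z) h

theorem fg_bz' (hK : IsCurve k K) {z : K} (hz : ∀ c : k, z ≠ algebraMap k K c)
    (D : Dv k K) : (bz z D).FG := by
  obtain ⟨m₀, h0⟩ := exists_step hK hz D
  haveI := hK.finDim (D + m₀ • poles k z)
  obtain ⟨s, hs⟩ : (L (D + m₀ • poles k z)).FG :=
    (Submodule.fg_iff_finiteDimensional _).2 (hK.finDim _)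
  refine ⟨s, le_antisymm ?_ ?_⟩
  · rw [Submodule.span_le]
    intro x hx
    have h1 : x ∈ L (D + m₀ • poles k z) := by
      rw [← hs]
      exact Submodule.subset_span hx
    exact (mem_bz_iff' hK hz D x).2 ⟨m₀, h1⟩
  · have hk : ∀ x ∈ L (D + m₀ • poles k z), x ∈ Submodule.span (Rz k z) (s : Set K) := by
      intro x hx
      rw [← hs] at hx
      induction hx using Submodule.span_induction with
      | mem x hx => exact Submodule.subset_span hx
      | zero => exact Submodule.zero_mem _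
      | add x y _ _ h1 h2 => exact Submodule.add_mem _ h1 h2
      | smul c x _ h1 =>
        have h2 := Submodule.smul_mem _ (algebraMap k (Rz k z) c) h1
        rwa [algebraMap_smul] at h2
    have hall : ∀ j : ℕ, ∀ x ∈ L (D + (m₀ + j) • poles k z),
        x ∈ Submodule.span (Rz k z) (s : Set K) := by
      intro j
      induction j with
      | zero => exact hk
      | succ j ih =>
        intro x hx
        obtain ⟨g, hg, h, hh, rfl⟩ := h0 (m₀ + j) (Nat.le_add_right _ _) x hx
        refine Submodule.add_mem _ (ih g hg) ?_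
        exact Submodule.smul_mem _ (⟨z, z_mem_Rz z⟩ : Rz k z) (ih h hh)
    intro x hx
    obtain ⟨m, hm⟩ := (mem_bz_iff' hK hz D x).1 hx
    exact hall m x (L_nsmul_mono D z (Nat.le_add_left _ _) hm)

theorem finiteType_Rz' (hK : IsCurve k K) {z : K} (hz : ∀ c : k, z ≠ algebraMap k K c) :
    Algebra.FiniteType k (Rz k z) := by
  obtain ⟨m₀, h0⟩ := exists_step hK hz (0 : Dv k K)
  obtain ⟨s, hs⟩ : (L ((0 : Dv k K) + m₀ • poles k z)).FG :=
    (Submodule.fg_iff_finiteDimensional _).2 (hK.finDim _)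
  have hL : ∀ (m : ℕ) (x : K), x ∈ L ((0 : Dv k K) + m • poles k z) → x ∈ Rz k z := by
    intro m x hx
    rw [mem_Rz_iff_bz]
    exact (mem_bz_iff' hK hz 0 x).2 ⟨m, hx⟩
  rw [← Subalgebra.fg_iff_finiteType]
  refine ⟨insert z s, le_antisymm ?_ ?_⟩
  · rw [Algebra.adjoin_le_iff]
    intro x hx
    rw [Finset.coe_insert, Set.mem_insert_iff] at hx
    rcases hx with rfl | hx
    · exact z_mem_Rz _
    · refine hL m₀ x ?_
      rw [← hs]
      exact Submodule.subset_span hx
  · have hz' : z ∈ Algebra.adjoin k ((insert z s : Finset K) : Set K) :=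
      Algebra.subset_adjoin (by rw [Finset.coe_insert]; exact Set.mem_insert _ _)
    have hk : ∀ x ∈ L ((0 : Dv k K) + m₀ • poles k z),
        x ∈ Algebra.adjoin k ((insert z s : Finset K) : Set K) := by
      intro x hx
      rw [← hs] at hx
      have h1 : Submodule.span k (s : Set K) ≤
          Subalgebra.toSubmodule (Algebra.adjoin k ((insert z s : Finset K) : Set K)) := by
        rw [Submodule.span_le]
        intro y hy
        exact Algebra.subset_adjoin (by rw [Finset.coe_insert]; exact Set.mem_insert_of_mem _ hy)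
      exact h1 hx
    have hall : ∀ j : ℕ, ∀ x ∈ L ((0 : Dv k K) + (m₀ + j) • poles k z),
        x ∈ Algebra.adjoin k ((insert z s : Finset K) : Set K) := by
      intro j
      induction j with
      | zero => exact hk
      | succ j ih =>
        intro x hx
        obtain ⟨g, hg, h, hh, rfl⟩ := h0 (m₀ + j) (Nat.le_add_right _ _) x hx
        exact Subalgebra.add_mem _ (ih g hg) (Subalgebra.mul_mem _ hz' (ih h hh))
    intro x hx
    rw [mem_Rz_iff_bz] at hx
    obtain ⟨m, hm⟩ := (mem_bz_iff' hK hz 0 x).1 hx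
    exact hall m x (L_nsmul_mono 0 z (Nat.le_add_left _ _) hm)

/-- `𝔪_P b_D = b_(D - P)`. -/
theorem bz_sub_single' (hK : IsCurve k K) {z : K} (hz : ∀ c : k, z ≠ algebraMap k K c)
    (D : Dv k K) {P : Pt k K} (hP : 0 ≤ P.ord z) {I : Ideal (Rz k z)}
    (hI : ∀ f : Rz k z, f ∈ I ↔ (f : K) = 0 ∨ 0 < P.ord (f : K)) :
    I • bz z D = bz z (D - Finsupp.single P 1) := by
  have hz0 := neC_zero hz
  refine le_antisymm ?_ ?_
  · rw [Submodule.smul_le]
    intro r hr b hb
    show (r : K) * b ∈ bz z (D - Finsupp.single P 1)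
    rcases (hI r).1 hr with h0 | h0
    · rw [h0, zero_mul]
      exact Submodule.zero_mem _
    rcases mem_bz.1 hb with h1 | h1
    · rw [h1, mul_zero]
      exact Submodule.zero_mem _
    by_cases hr0 : (r : K) = 0
    · rw [hr0, zero_mul]
      exact Submodule.zero_mem _
    by_cases hb0 : b = 0
    · rw [hb0, mul_zero]
      exact Submodule.zero_mem _
    refine mem_bz.2 (Or.inr fun Q hQ => ?_)
    rw [Q.ord_mul hr0 hb0, Finsupp.sub_apply]
    have h2 := h1 Q hQ
    have h3 : 0 ≤ Q.ord (r : K) := r.2 Q hQ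
    by_cases hQP : P = Q
    · subst hQP
      rw [Finsupp.single_eq_same]
      omega
    · rw [Finsupp.single_apply, if_neg hQP]
      omega
  · intro f hf
    obtain ⟨m, hm⟩ := (mem_bz_iff' hK hz _ f).1 hf
    obtain ⟨a₀, ha⟩ := hK.exists_isGood
    have hpos := hK.deg_poles_pos hz
    -- the pencil
    obtain ⟨m₁, hm₁⟩ : ∃ m₁ : ℕ, a₀ + 1 ≤ m₁ := ⟨(a₀ + 1).toNat, Int.self_le_toNat _⟩
    set A : Dv k K := m₁ • poles k z - Finsupp.single P 1 with hA
    have hAdeg : a₀ ≤ deg A := by
      rw [hA, deg_sub, deg_nsmul, deg_single]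
      nlinarith [ha.pos]
    obtain ⟨u₁, hu₁, u₂, hu₂, n₁, n₂, hu⟩ := ha.pencil hAdeg
    obtain ⟨m₂, hm₂⟩ : ∃ m₂ : ℕ, a₀ + deg A - deg D ≤ m₂ ∧ m ≤ m₁ + m₂ :=
      ⟨max (a₀ + deg A - deg D).toNat m, by
        refine ⟨?_, by omega⟩
        have := Int.self_le_toNat (a₀ + deg A - deg D)
        have h2 : ((a₀ + deg A - deg D).toNat : ℤ) ≤
          ((max (a₀ + deg A - deg D).toNat m : ℕ) : ℤ) := by exact_mod_cast le_max_left _ _
        linarith⟩
    have hB : a₀ + deg A ≤ deg (D + m₂ • poles k z) := by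
      rw [deg_add, deg_nsmul]
      nlinarith [hm₂.1]
    have hmem : ∀ u ∈ L A, u ≠ 0 → ∃ r : Rz k z, r ∈ I ∧ (r : K) = u := by
      intro u hu hu0
      rw [mem_L_of_ne hu0] at hu
      have h1 : u ∈ Rz k z := by
        intro Q hQ
        have h2 := hu Q
        rw [hA, Finsupp.sub_apply, Finsupp.smul_apply, polesC_eq_zero hK hz0 hQ,
          smul_zero] at h2
        by_cases hQP : P = Q
        · subst hQP
          rw [Finsupp.single_eq_same] at h2
          omega
        · rw [Finsupp.single_apply, if_neg hQP] at h2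
          omega
      refine ⟨⟨u, h1⟩, (hI _).2 (Or.inr ?_), rfl⟩
      have h2 := hu P
      rw [hA, Finsupp.sub_apply, Finsupp.smul_apply, polesC_eq_zero hK hz0 hP, smul_zero,
        Finsupp.single_eq_same] at h2
      show 0 < P.ord u
      omega
    obtain ⟨g₁, hg₁, g₂, hg₂, h⟩ := (hK.isBdl_L ha).pencil_surj hK (A := A)
      (B := D + m₂ • poles k z) (ha.pos.trans hAdeg) hB hu₁ hu₂ n₁ n₂ hu (v := f) (by
        show f ∈ L _
        have e : D + m₂ • poles k z + A =
            (D - Finsupp.single P 1) + (m₁ + m₂) • poles k z := by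
          rw [hA, add_nsmul]
          abel
        rw [e]
        exact L_nsmul_mono _ z hm₂.2 hm)
    obtain ⟨r₁, hr₁, e₁⟩ := hmem u₁ hu₁ n₁
    obtain ⟨r₂, hr₂, e₂⟩ := hmem u₂ hu₂ n₂
    rw [h]
    refine Submodule.add_mem _ ?_ ?_
    · have h1 := Submodule.smul_mem_smul hr₁ ((mem_bz_iff' hK hz D g₁).2 ⟨m₂, hg₁⟩)
      have h2 : r₁ • g₁ = u₁ • g₁ := by
        show (r₁ : K) * g₁ = u₁ * g₁
        rw [e₁]
      rwa [h2] at h1
    · have h1 := Submodule.smul_mem_smul hr₂ ((mem_bz_iff' hK hz D g₂).2 ⟨m₂, hg₂⟩)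
      have h2 : r₂ • g₂ = u₂ • g₂ := by
        show (r₂ : K) * g₂ = u₂ * g₂
        rw [e₂]
      rwa [h2] at h1

end Pool.Agent.MPd118f9
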