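import Pool.Agent.Lib.MP_d118f9_ag.C.PAff

/-!
# MP_d118f9_ag, block C: characters of the affine ring are points
-/

set_option autoImplicit false

noncomputable section

open Classical

namespace Pool.Agent.MPd118f9

variable {k K : Type} [Field k] [IsAlgClosed k] [CharZero k] [Field K] [Algebra k K]

/-- Every character is the evaluation at a point. -/
theorem exists_pt_of_hom' (hK : IsCurve k K) {z : K} (hz : ∀ c : k, z ≠ algebraMap k K c)
    (χ : Rz k z →ₐ[k] k) :
    ∃ P : Pt k K, 0 ≤ P.ord z ∧ ∀ f : Rz k z, χ f = 0 ↔ (f : K) = 0 ∨ 0 < P.ord (f : K) := by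
  have hz0 := neC_zero hz
  haveI : Infinite k := inferInstance
  set zR : Rz k z := ⟨z, z_mem_Rz z⟩ with hzR
  set c : k := χ zR with hc
  set yR : Rz k z := zR - algebraMap k (Rz k z) c with hyR
  have hy : (yR : K) = z - algebraMap k K c := rfl
  have hy0 : (yR : K) ≠ 0 := by
    rw [hy, sub_ne_zero]
    exact hz c
  have hχy : χ yR = 0 := by
    rw [hyR, map_sub, AlgHom.commutes]
    exact sub_self _
  have hZ : {P : Pt k K | 0 < P.ord (yR : K)}.Finite :=
    (hK.finite_ord hy0).subset fun P hP => (ne_of_gt hP : P.ord (yR : K) ≠ 0)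
  have hkey : ∃ P ∈ hZ.toFinset, ∀ f : Rz k z, χ f = 0 → (f : K) = 0 ∨ 0 < P.ord (f : K) := by
    by_contra hcon
    push Not at hcon
    choose! g hg using hcon
    -- the subspaces
    let M : Submodule k (Rz k z) := LinearMap.ker χ.toLinearMap
    have hMmem : ∀ f : Rz k z, f ∈ M ↔ χ f = 0 := fun f => Iff.rfl
    let V : Pt k K → Submodule k (Rz k z) := fun P =>
      { carrier := {f | (f : K) = 0 ∨ 0 < P.ord (f : K)}
        zero_mem' := Or.inl rfl
        add_mem' := by
          rintro f f' (h | h) (h' | h')
          · left
            show (f : K) + f' = 0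
            rw [h, h', add_zero]
          · right
            show 0 < P.ord ((f : K) + f')
            rw [h, zero_add]
            exact h'
          · right
            show 0 < P.ord ((f : K) + f')
            rw [h', add_zero]
            exact h
          · by_cases h0 : (f : K) + f' = 0
            · exact Or.inl h0
            · right
              have e0 : P.ord (0 : K) = 0 := MP9a7843.ord_zero
              have h1 : (f : K) ≠ 0 := by
                intro h1
                rw [h1, e0] at h
                exact lt_irrefl _ h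
              have h2 : (f' : K) ≠ 0 := by
                intro h1
                rw [h1, e0] at h'
                exact lt_irrefl _ h'
              exact P.le_ord_add h1 h2 h0 (n := 1) h h'
        smul_mem' := by
          rintro a f h
          rcases h with h | h
          · left
            show ((a • f : Rz k z) : K) = 0
            rw [Subalgebra.coe_smul, h, smul_zero]
          · by_cases ha : a = 0
            · left
              show ((a • f : Rz k z) : K) = 0
              rw [ha, zero_smul]
              rfl
            · right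
              show 0 < P.ord ((a • f : Rz k z) : K)
              by_cases h0 : (f : K) = 0
              · exfalso
                have e0 : P.ord (0 : K) = 0 := MP9a7843.ord_zero
                rw [h0, e0] at h
                exact lt_irrefl _ h
              rw [Subalgebra.coe_smul, Algebra.smul_def, P.ord_mul
                ((map_ne_zero_iff _ (algebraMap k K).injective).2 ha) h0, P.ord_algebraMap,
                zero_add]
              exact h }
    let p : Option hZ.toFinset → Subspace k M := fun o =>
      match o with
      | none => ⊥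
      | some P => (V (P : Pt k K)).comap M.subtype
    have hne : ⋃ i, (p i : Set M) ≠ Set.univ := by
      intro hU
      obtain ⟨i, hi⟩ := Subspace.exists_eq_top_of_iUnion_eq_univ hU
      match i, hi with
      | none, hi =>
        have h1 : (⟨yR, hχy⟩ : M) ∈ (⊥ : Submodule k M) := by
          have hi' : (⊥ : Submodule k M) = ⊤ := hi
          rw [hi']
          exact Submodule.mem_top
        rw [Submodule.mem_bot] at h1
        have h2 := congrArg (fun x : M => ((x : Rz k z) : K)) h1
        exact hy0 h2
      | some P, hi =>
        obtain ⟨h1, h2, h3⟩ := hg P P.2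
        have h4 : (⟨g P, h1⟩ : M) ∈ (V (P : Pt k K)).comap M.subtype := by
          have hi' : (V (P : Pt k K)).comap M.subtype = ⊤ := hi
          rw [hi']
          exact Submodule.mem_top
        rcases h4 with h4 | h4
        · exact h2 h4
        · exact absurd h4 (not_lt.2 h3)
    obtain ⟨x, hx⟩ := (Set.ne_univ_iff_exists_notMem _).1 hne
    rw [Set.mem_iUnion] at hx
    push Not at hx
    have hx0 : ((x : Rz k z) : K) ≠ 0 := by
      intro h0
      refine hx none ?_
      show x ∈ (⊥ : Submodule k M)
      rw [Submodule.mem_bot]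
      exact Subtype.ext (Subtype.ext h0)
    have hxP : ∀ P : Pt k K, 0 < P.ord (yR : K) → P.ord ((x : Rz k z) : K) = 0 := by
      intro P hP
      have h1 := hx (some ⟨P, hZ.mem_toFinset.2 hP⟩)
      have h2 : ¬(((x : Rz k z) : K) = 0 ∨ 0 < P.ord ((x : Rz k z) : K)) := h1
      rw [not_or] at h2
      have h3 : 0 ≤ P.ord z := by
        by_contra h3
        push Not at h3
        have h4 : P.ord (yR : K) ≤ 0 := by
          by_contra h5
          push Not at h5
          -- z = y + c
          have e1 : z = (yR : K) + algebraMap k K c := by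
            rw [hy, sub_add_cancel]
          by_cases hc0 : algebraMap k K c = 0
          · rw [hc0, add_zero] at e1
            rw [← e1] at h5
            omega
          · have h6 := P.le_ord_add hy0 hc0 (by rw [← e1]; exact hz0) (n := 0) h5.le
              (P.ord_algebraMap c).ge
            rw [← e1] at h6
            omega
        omega
      have h5 : 0 ≤ P.ord ((x : Rz k z) : K) := (x : Rz k z).2 P h3
      omega
    -- the pencil `y, x`
    obtain ⟨a₀, ha⟩ := hK.exists_isGood
    set A : Dv k K := -(dv k (yR : K) ⊓ dv k ((x : Rz k z) : K)) with hA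
    have hAP : ∀ P, A P = -min (P.ord (yR : K)) (P.ord ((x : Rz k z) : K)) := by
      intro P
      rw [hA, Finsupp.neg_apply, Finsupp.inf_apply, hK.dv_apply hy0, hK.dv_apply hx0]
    have hA0 : 0 ≤ A := by
      intro P
      rw [Finsupp.coe_zero, Pi.zero_apply, hAP]
      by_cases hP : 0 < P.ord (yR : K)
      · rw [hxP P hP, min_eq_right hP.le, neg_zero]
      · have h1 := min_le_left (P.ord (yR : K)) (P.ord ((x : Rz k z) : K))
        omega
    have hyA : (yR : K) ∈ L A := by
      rw [mem_L_of_ne hy0]
      intro P
      rw [hAP, neg_neg]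
      exact min_le_left _ _
    have hxA : ((x : Rz k z) : K) ∈ L A := by
      rw [mem_L_of_ne hx0]
      intro P
      rw [hAP, neg_neg]
      exact min_le_right _ _
    have hpos := hK.deg_poles_pos hz
    have hdegA : 0 ≤ deg A := by
      have := deg_mono hA0
      rwa [deg_zero] at this
    obtain ⟨m, hm⟩ : ∃ m : ℕ, a₀ + deg A ≤ m := ⟨(a₀ + deg A).toNat, Int.self_le_toNat _⟩
    obtain ⟨g₁, hg₁, g₂, hg₂, h⟩ := (hK.isBdl_L ha).pencil_surj hK (A := A)
      (B := 0 + m • poles k z) hdegA (by
        rw [zero_add, deg_nsmul]
        nlinarith [ha.pos]) hyA hxA hy0 hx0 (by rw [hA, neg_neg]) (v := (1 : K)) (by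
        show (1 : K) ∈ L _
        refine one_mem_L ?_
        rw [zero_add]
        exact add_nonneg (nsmul_nonneg (polesC_nonneg z) m) hA0)
    have hr : ∀ g : K, g ∈ L ((0 : Dv k K) + m • poles k z) → g ∈ Rz k z := by
      intro g hg
      rw [mem_Rz_iff_bz]
      exact (mem_bz_iff' hK hz 0 g).2 ⟨m, hg⟩
    have h1 : (1 : Rz k z) = yR * ⟨g₁, hr g₁ hg₁⟩ + (x : Rz k z) * ⟨g₂, hr g₂ hg₂⟩ :=
      Subtype.ext h
    have h2 := congrArg χ h1
    have h3 : χ (x : Rz k z) = 0 := x.2
    rw [map_one, map_add, map_mul, map_mul, hχy, h3, zero_mul, zero_mul, add_zero] at h2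
    exact one_ne_zero h2
  obtain ⟨P, hPZ, hP⟩ := hkey
  have hPy : 0 < P.ord (yR : K) := hZ.mem_toFinset.1 hPZ
  have hPz : 0 ≤ P.ord z := by
    have e1 : z = (yR : K) + algebraMap k K c := by
      rw [hy, sub_add_cancel]
    by_cases hc0 : algebraMap k K c = 0
    · rw [hc0, add_zero] at e1
      rw [e1]
      exact hPy.le
    · have h6 := P.le_ord_add hy0 hc0 (by rw [← e1]; exact hz0) (n := 0) hPy.le
        (P.ord_algebraMap c).ge
      rwa [← e1] at h6
  refine ⟨P, hPz, fun f => ⟨hP f, fun h => ?_⟩⟩
  by_contra ha
  have h1 := hP (f - algebraMap k (Rz k z) (χ f)) (by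
    rw [map_sub, AlgHom.commutes]
    exact sub_self _)
  have e2 : ((f - algebraMap k (Rz k z) (χ f) : Rz k z) : K) = (f : K) - algebraMap k K (χ f) := rfl
  rw [e2] at h1
  have hne : algebraMap k K (χ f) ≠ 0 := (map_ne_zero_iff _ (algebraMap k K).injective).2 ha
  have e0 : P.ord (0 : K) = 0 := MP9a7843.ord_zero
  rcases h with h | h
  · rw [h, zero_sub] at h1
    rcases h1 with h1 | h1
    · exact hne (neg_eq_zero.1 h1)
    · rw [P.ord_neg, P.ord_algebraMap] at h1
      exact lt_irrefl _ h1
  · have hf0 : (f : K) ≠ 0 := by
      intro hf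
      rw [hf, e0] at h
      exact lt_irrefl _ h
    rcases h1 with h1 | h1
    · rw [sub_eq_zero] at h1
      rw [h1, P.ord_algebraMap] at h
      exact lt_irrefl _ h
    · have hd0 : (f : K) - algebraMap k K (χ f) ≠ 0 := by
        intro hd
        rw [hd, e0] at h1
        exact lt_irrefl _ h1
      have e3 : algebraMap k K (χ f) = (f : K) + -((f : K) - algebraMap k K (χ f)) := by ring
      have h2 := P.le_ord_add hf0 (neg_ne_zero.2 hd0) (by rw [← e3]; exact hne) (n := 1) h
        (by rw [P.ord_neg]; exact h1)
      rw [← e3, P.ord_algebraMap] at h2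
      omega

end Pool.Agent.MPd118f9
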