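import Pool.Agent.Lib.MP_d118f9_ag.C.PAff

/-!
# MP_d118f9_ag, block C: very ampleness of canonical divisors
-/

set_option autoImplicit false

noncomputable section

open Classical

namespace Pool.Agent.MPd118f9

variable {k K : Type} [Field k] [IsAlgClosed k] [CharZero k] [Field K] [Algebra k K]

/-- `l(D + ζ) ≤ l(D) + n` when `ζ` is a sum of `n` points. -/
private theorem ell_add_sum_le (hK : IsCurve k K) (D : Dv k K) {n : ℕ} (P : Fin n → Pt k K) :
    ell (D + ∑ i, Finsupp.single (P i) 1) ≤ ell D + n := by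
  induction n with
  | zero => simp
  | succ n ih =>
    rw [Fin.sum_univ_castSucc, ← add_assoc]
    have h1 := hK.ell_add_single_le (D + ∑ i : Fin n, Finsupp.single (P i.castSucc) 1)
      (P (Fin.last n))
    have h2 := ih fun i => P i.castSucc
    omega

private theorem deg_sum_single' {n : ℕ} (P : Fin n → Pt k K) :
    deg (∑ i, Finsupp.single (P i) 1 : Dv k K) = n := by
  induction n with
  | zero => simp [deg_zero]
  | succ n ih =>
    rw [Fin.sum_univ_castSucc, deg_add, ih fun i => P i.castSucc, deg_single]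
    push_cast
    rfl

private theorem sum_single_nonneg' {n : ℕ} (P : Fin n → Pt k K) :
    (0 : Dv k K) ≤ ∑ i, Finsupp.single (P i) 1 := by
  refine Finset.sum_nonneg fun i _ => ?_
  intro Q
  rw [Finsupp.coe_zero, Pi.zero_apply, Finsupp.single_apply]
  split_ifs
  · exact zero_le_one
  · exact le_refl _

private theorem sum_single_eq_zero {n : ℕ} (P : Fin n → Pt k K) {Q : Pt k K}
    (h : ∀ i, P i ≠ Q) : (∑ i, Finsupp.single (P i) 1 : Dv k K) Q = 0 := by
  rw [Finsupp.finset_sum_apply]
  refine Finset.sum_eq_zero fun i _ => ?_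
  rw [Finsupp.single_apply, if_neg (h i)]

/-- Very ampleness of the canonical divisor: `n ≤ gon - 1` points impose independent conditions. -/
theorem veryAmple' (hK : IsCurve k K) {W : Dv k K} (hW : IsCan W) {z : K}
    (hz : ∀ c : k, z ≠ algebraMap k K c) {n : ℕ} (hn : n + 1 ≤ gon k K) (P : Fin n → Pt k K)
    (hP : ∀ i, 0 ≤ (P i).ord z) {b : K} (hb : b ∈ bz z W) :
    ∃ v ∈ L W, b - v ∈ bz z (W - ∑ i, Finsupp.single (P i) 1) := by
  have hz0 := neC_zero hz
  set ζ : Dv k K := ∑ i, Finsupp.single (P i) 1 with hζ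
  have hζ0 : 0 ≤ ζ := sum_single_nonneg' P
  have hζdeg : deg ζ = n := deg_sum_single' P
  have h1 : ell ζ ≤ 1 := by
    by_contra h1
    push Not at h1
    have h2 : gon k K ≤ n := Nat.sInf_le ⟨ζ, hζ0, h1, hζdeg.symm⟩
    omega
  have h2 := hW.riemann_roch hK ζ
  have h3 : ell W = genus k K := hW.2
  rw [hζdeg] at h2
  have h4 : (ell (W - ζ) : ℤ) + n ≤ ell W := by
    rw [h3]
    have h5 : (ell ζ : ℤ) ≤ 1 := by exact_mod_cast h1
    linarith
  obtain ⟨m, hm⟩ := (mem_bz_iff' hK hz W b).1 hb
  set V : Dv k K := W + m • poles k z with hV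
  have hVζ : ell V ≤ ell (V - ζ) + n := by
    have := ell_add_sum_le hK (V - ζ) P
    rwa [sub_add_cancel] at this
  haveI := hK.finDim V
  haveI := hK.finDim W
  haveI := hK.finDim (V - ζ)
  have hWV : L W ≤ L V := by
    refine L_mono ?_
    rw [hV]
    exact le_add_of_nonneg_right (nsmul_nonneg (polesC_nonneg z) m)
  have hVζV : L (V - ζ) ≤ L V := L_mono (sub_le_self _ hζ0)
  have hinf : L W ⊓ L (V - ζ) = L (W - ζ) := by
    refine le_antisymm ?_ ?_
    · rintro x ⟨hx1, hx2⟩
      have h5 := L_inf hx1 hx2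
      refine L_mono ?_ h5
      intro Q
      rw [Finsupp.inf_apply, Finsupp.sub_apply, Finsupp.sub_apply]
      by_cases hQ : ∃ i, P i = Q
      · obtain ⟨i, rfl⟩ := hQ
        refine (min_le_right _ _).trans ?_
        rw [hV, Finsupp.add_apply, Finsupp.smul_apply, polesC_eq_zero hK hz0 (hP i), smul_zero,
          add_zero]
      · push Not at hQ
        refine (min_le_left _ _).trans ?_
        rw [hζ, sum_single_eq_zero P hQ, sub_zero]
    · refine le_inf (L_mono (sub_le_self _ hζ0)) (L_mono ?_)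
      rw [hV]
      exact sub_le_sub_right
        (le_add_of_nonneg_right (nsmul_nonneg (polesC_nonneg z) m)) _
  have hsup : L W ⊔ L (V - ζ) = L V := by
    refine Submodule.eq_of_le_of_finrank_le (sup_le hWV hVζV) ?_
    have h5 := Submodule.finrank_sup_add_finrank_inf_eq (L W) (L (V - ζ))
    rw [hinf] at h5
    have e1 : Module.finrank k (L W) = ell W := rfl
    have e2 : Module.finrank k (L (V - ζ)) = ell (V - ζ) := rfl
    have e3 : Module.finrank k (L (W - ζ)) = ell (W - ζ) := rfl
    have e4 : Module.finrank k (L V) = ell V := rfl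
    rw [e1, e2, e3] at h5
    rw [e4]
    have h6 : ell (W - ζ) + n ≤ ell W := by exact_mod_cast h4
    omega
  have hb' : b ∈ L W ⊔ L (V - ζ) := by
    rw [hsup]
    exact hm
  obtain ⟨v, hv, u, hu, rfl⟩ := Submodule.mem_sup.1 hb'
  refine ⟨v, hv, ?_⟩
  rw [add_sub_cancel_left]
  refine (mem_bz_iff' hK hz _ u).2 ⟨m, ?_⟩
  have e : V - ζ = W - ζ + m • poles k z := by
    rw [hV]
    abel
  rwa [e] at hu

end Pool.Agent.MPd118f9
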