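import Pool.Agent.Lib.MP_d118f9_ag.C.A8

/-!
# MP_d118f9_ag, block C, Riemann-Roch: repartitions and differentials
-/

set_option autoImplicit false

noncomputable section

open Classical

namespace Pool.Agent.MPd118f9

section Local

variable {k F : Type} [Field k] [Field F] [Algebra k F]

/-- `f` vanishes to order at least `n` at `P`. -/
def LeOrd (P : Pt k F) (n : ℤ) (f : F) : Prop := f = 0 ∨ n ≤ P.ord f

theorem LeOrd.zero (P : Pt k F) (n : ℤ) : LeOrd P n 0 := Or.inl rfl

theorem LeOrd.add {P : Pt k F} {n : ℤ} {f g : F} (hf : LeOrd P n f) (hg : LeOrd P n g) :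
    LeOrd P n (f + g) := by
  by_cases hf0 : f = 0
  · rw [hf0, zero_add]
    exact hg
  by_cases hg0 : g = 0
  · rw [hg0, add_zero]
    exact hf
  by_cases hfg : f + g = 0
  · exact Or.inl hfg
  · exact Or.inr (P.le_ord_add hf0 hg0 hfg (hf.resolve_left hf0) (hg.resolve_left hg0))

theorem LeOrd.mul {P : Pt k F} {n m : ℤ} {f g : F} (hf : LeOrd P n f) (hg : LeOrd P m g) :
    LeOrd P (n + m) (f * g) := by
  by_cases hf0 : f = 0
  · rw [hf0, zero_mul]
    exact LeOrd.zero _ _
  by_cases hg0 : g = 0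
  · rw [hg0, mul_zero]
    exact LeOrd.zero _ _
  · refine Or.inr ?_
    rw [P.ord_mul hf0 hg0]
    exact add_le_add (hf.resolve_left hf0) (hg.resolve_left hg0)

theorem LeOrd.const (P : Pt k F) (c : k) : LeOrd P 0 (algebraMap k F c) := by
  refine Or.inr ?_
  rw [P.ord_algebraMap]

theorem LeOrd.smul {P : Pt k F} {n : ℤ} {f : F} (c : k) (hf : LeOrd P n f) :
    LeOrd P n (c • f) := by
  have h1 := (LeOrd.const P c).mul hf
  rwa [zero_add, ← Algebra.smul_def] at h1

theorem LeOrd.neg {P : Pt k F} {n : ℤ} {f : F} (hf : LeOrd P n f) : LeOrd P n (-f) := by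
  rcases hf with h | h
  · rw [h, neg_zero]
    exact LeOrd.zero _ _
  · refine Or.inr ?_
    rwa [P.ord_neg]

theorem LeOrd.sub {P : Pt k F} {n : ℤ} {f g : F} (hf : LeOrd P n f) (hg : LeOrd P n g) :
    LeOrd P n (f - g) := by
  rw [sub_eq_add_neg]
  exact hf.add hg.neg

theorem LeOrd.mono {P : Pt k F} {n m : ℤ} {f : F} (h : m ≤ n) (hf : LeOrd P n f) :
    LeOrd P m f := hf.imp id fun h' => h.trans h'

/-- `α` has the poles bounded by `D`. -/
def InA (D : Dv k F) (α : Pt k F → F) : Prop := ∀ P, LeOrd P (-D P) (α P)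

theorem InA.add {D : Dv k F} {α β : Pt k F → F} (hα : InA D α) (hβ : InA D β) :
    InA D (α + β) := fun P => (hα P).add (hβ P)

theorem InA.sub {D : Dv k F} {α β : Pt k F → F} (hα : InA D α) (hβ : InA D β) :
    InA D (α - β) := fun P => (hα P).sub (hβ P)

theorem InA.zero (D : Dv k F) : InA D (0 : Pt k F → F) := fun P => LeOrd.zero P _

theorem InA.mono {D D' : Dv k F} (h : D ≤ D') {α : Pt k F → F} (hα : InA D α) : InA D' α :=
  fun P => (hα P).mono (neg_le_neg (h P))

theorem InA.smulk {D : Dv k F} {α : Pt k F → F} (c : k) (hα : InA D α) :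
    InA D (c • α) := fun P => (hα P).smul c

theorem inA_const {D : Dv k F} {x : F} : InA D (fun _ => x) ↔ x ∈ L D := by
  rw [mem_L]
  constructor
  · intro h
    by_cases hx : x = 0
    · exact Or.inl hx
    · exact Or.inr fun P => (h P).resolve_left hx
  · rintro (h | h) P
    · exact Or.inl h
    · exact Or.inr (h P)

end Local

variable {k F : Type} [Field k] [IsAlgClosed k] [CharZero k] [Field F] [Algebra k F]

/-- There are points. -/
theorem nonempty_pt (hF : IsCurve k F) : Nonempty (Pt k F) := by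
  by_contra hcon
  rw [not_nonempty_iff] at hcon
  obtain ⟨z, hz, -⟩ := id hF
  have h1 : z ∈ L (0 : Dv k F) := Or.inr fun P => hcon.elim P
  obtain ⟨c, hc⟩ := hF.mem_L_zero.1 h1
  apply hz
  rw [hc]
  exact isAlgebraic_algebraMap c

theorem InA.smul (hF : IsCurve k F) {D : Dv k F} {α : Pt k F → F} (hα : InA D α) {x : F}
    (hx : x ≠ 0) : InA (D - dv k x) (x • α) := by
  intro P
  have h1 : LeOrd P (P.ord x) x := Or.inr le_rfl
  have h2 := h1.mul (hα P)
  have h3 : -(D - dv k x) P = P.ord x + -D P := by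
    rw [Finsupp.sub_apply, hF.dv_apply hx]
    ring
  rw [h3]
  exact h2

/-- The space of repartitions. -/
def Ad (hF : IsCurve k F) : Submodule F (Pt k F → F) where
  carrier := {α | ∃ D : Dv k F, InA D α}
  zero_mem' := ⟨0, InA.zero 0⟩
  add_mem' := by
    rintro α β ⟨D, hα⟩ ⟨D', hβ⟩
    exact ⟨D ⊔ D', (hα.mono le_sup_left).add (hβ.mono le_sup_right)⟩
  smul_mem' := by
    rintro x α ⟨D, hα⟩
    by_cases hx : x = 0
    · subst hx
      rw [zero_smul]
      exact ⟨0, InA.zero 0⟩
    · exact ⟨_, hα.smul hF hx⟩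

/-- Constant repartitions. -/
def cst (hF : IsCurve k F) (x : F) : Ad hF :=
  ⟨fun _ => x, by
    by_cases hx : x = 0
    · subst hx
      exact ⟨0, InA.zero 0⟩
    · refine ⟨-dv k x, fun P => Or.inr ?_⟩
      rw [Finsupp.neg_apply, hF.dv_apply hx, neg_neg]⟩

theorem smul_cst (hF : IsCurve k F) (x y : F) : x • cst hF y = cst hF (x * y) := rfl

theorem cst_add (hF : IsCurve k F) (x y : F) : cst hF (x + y) = cst hF x + cst hF y := rfl

theorem smulk_cst (hF : IsCurve k F) (c : k) (x : F) : c • cst hF x = cst hF (c • x) := rfl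

/-- The differentials whose divisor is at least `D`. -/
def Om (hF : IsCurve k F) (D : Dv k F) : Submodule k (Ad hF →ₗ[k] k) where
  carrier := {ω | (∀ α : Ad hF, InA D (α : Pt k F → F) → ω α = 0) ∧ ∀ x, ω (cst hF x) = 0}
  zero_mem' := ⟨fun _ _ => rfl, fun _ => rfl⟩
  add_mem' := by
    rintro ω η ⟨h1, h2⟩ ⟨h3, h4⟩
    refine ⟨fun α hα => ?_, fun x => ?_⟩
    · rw [LinearMap.add_apply, h1 α hα, h3 α hα, add_zero]
    · rw [LinearMap.add_apply, h2 x, h4 x, add_zero]
  smul_mem' := by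
    rintro c ω ⟨h1, h2⟩
    refine ⟨fun α hα => ?_, fun x => ?_⟩
    · rw [LinearMap.smul_apply, h1 α hα, smul_zero]
    · rw [LinearMap.smul_apply, h2 x, smul_zero]

theorem Om_anti (hF : IsCurve k F) {D D' : Dv k F} (h : D ≤ D') : Om hF D' ≤ Om hF D :=
  fun _ hω => ⟨fun α hα => hω.1 α (hα.mono h), hω.2⟩

/-- The multiplication of differentials by functions. -/
def mulOm (hF : IsCurve k F) (x : F) (ω : Ad hF →ₗ[k] k) : Ad hF →ₗ[k] k :=
  ω ∘ₗ (Algebra.lsmul k k (Ad hF) x)

theorem mulOm_apply (hF : IsCurve k F) (x : F) (ω : Ad hF →ₗ[k] k) (α : Ad hF) :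
    mulOm hF x ω α = ω (x • α) := rfl

/-- One step: the quotient of the repartitions with poles bounded by `D + P` and by `D` has
dimension one. -/
theorem step (hF : IsCurve k F) {D : Dv k F} {P : Pt k F} {α β : Pt k F → F}
    (hα : InA (D + Finsupp.single P 1) α) (hβ : InA (D + Finsupp.single P 1) β)
    (h0 : β P ≠ 0) (h1 : P.ord (β P) = -D P - 1) : ∃ c : k, InA D (α - c • β) := by
  have hloc : LeOrd P (-D P - 1) (α P) := by
    have h2 := hα P
    have h3 : -((D + Finsupp.single P 1 : Dv k F) P) = -D P - 1 := by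
      rw [Finsupp.add_apply, Finsupp.single_eq_same]
      ring
    rwa [h3] at h2
  obtain ⟨c, hc⟩ : ∃ c : k, LeOrd P (-D P) (α P - c • β P) := by
    by_cases hα0 : α P = 0
    · exact ⟨0, Or.inl (by rw [hα0, zero_smul, sub_zero])⟩
    have hq0 : α P / β P ≠ 0 := div_ne_zero hα0 h0
    have hq : 0 ≤ P.ord (α P / β P) := by
      rw [div_eq_mul_inv, P.ord_mul hα0 (inv_ne_zero h0), P.ord_inv, h1]
      have h2 := hloc.resolve_left hα0
      linarith
    obtain ⟨c, hc⟩ := hF.exists_const P hq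
    refine ⟨c, ?_⟩
    have h2 : α P - c • β P = β P * (α P / β P - algebraMap k F c) := by
      rw [mul_sub, mul_div_cancel₀ _ h0, Algebra.smul_def, mul_comm (algebraMap k F c)]
    rw [h2]
    have h3 : LeOrd P 1 (α P / β P - algebraMap k F c) := by
      rcases hc with h | h
      · exact Or.inl (sub_eq_zero.2 h)
      · exact Or.inr h
    have h4 : LeOrd P (-D P - 1) (β P) := Or.inr h1.ge
    have h5 := h4.mul h3
    rwa [sub_add_cancel] at h5
  refine ⟨c, fun Q => ?_⟩
  by_cases hQ : Q = P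
  · subst hQ
    exact hc
  · have h2 : -((D + Finsupp.single P 1 : Dv k F) Q) = -D Q := by
      rw [Finsupp.add_apply, Finsupp.single_eq_of_ne hQ, add_zero]
    have h3 := (hα Q).sub ((hβ Q).smul c)
    rw [h2] at h3
    exact h3

end Pool.Agent.MPd118f9
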