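import Pool.Agent.Lib.MP_d118f9_ag.C.RRa

/-!
# MP_d118f9_ag, block C, Riemann-Roch: the dimension of the spaces of differentials
-/

set_option autoImplicit false

noncomputable section

open Classical

namespace Pool.Agent.MPd118f9

section Local

variable {k F : Type} [Field k] [Field F] [Algebra k F]

theorem Dv.exists_lt {D D' : Dv k F} (h : D ≤ D') (hne : D ≠ D') :
    ∃ P, D + Finsupp.single P 1 ≤ D' ∧
      deg (D' - (D + Finsupp.single P 1)) = deg (D' - D) - 1 := by
  obtain ⟨P, hP⟩ : ∃ P, D P ≠ D' P := by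
    by_contra hcon
    push Not at hcon
    exact hne (Finsupp.ext hcon)
  refine ⟨P, fun Q => ?_, ?_⟩
  · rw [Finsupp.add_apply]
    by_cases hQ : Q = P
    · subst hQ
      rw [Finsupp.single_eq_same]
      have h1 := h Q
      omega
    · rw [Finsupp.single_eq_of_ne hQ, add_zero]
      exact h Q
  · rw [deg_sub, deg_sub, deg_add, deg_single]
    ring

/-- Upwards induction on divisors. -/
theorem Dv.induct_up {D : Dv k F} {p : Dv k F → Prop} (h0 : p D)
    (hs : ∀ D₁ P, D ≤ D₁ → p D₁ → p (D₁ + Finsupp.single P 1)) :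
    ∀ D', D ≤ D' → p D' := by
  have key : ∀ (n : ℕ) (D₁ D' : Dv k F), D ≤ D₁ → D₁ ≤ D' → (deg (D' - D₁)).toNat = n →
      p D₁ → p D' := by
    intro n
    induction n with
    | zero =>
      intro D₁ D' h1 h2 hn hp
      by_cases hne : D₁ = D'
      · rwa [← hne]
      · exfalso
        obtain ⟨P, hP, hd⟩ := Dv.exists_lt h2 hne
        have h3 : 0 ≤ deg (D' - (D₁ + Finsupp.single P 1)) := by
          rw [← deg_zero (k := k) (K := F)]
          exact deg_mono (sub_nonneg.2 hP)
        omega
    | succ n ih =>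
      intro D₁ D' h1 h2 hn hp
      have hne : D₁ ≠ D' := by
        rintro rfl
        rw [sub_self, deg_zero] at hn
        simp at hn
      obtain ⟨P, hP, hd⟩ := Dv.exists_lt h2 hne
      refine ih (D₁ + Finsupp.single P 1) D' (h1.trans ?_) hP ?_ (hs D₁ P h1 hp)
      · exact le_add_of_nonneg_right (Finsupp.single_nonneg.2 zero_le_one)
      · rw [hd]
        omega
  intro D' h
  exact key _ D D' le_rfl h rfl h0

/-- Downwards induction on divisors. -/
theorem Dv.induct_down {D' : Dv k F} {p : Dv k F → Prop} (h0 : p D')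
    (hs : ∀ D₁ P, D₁ + Finsupp.single P 1 ≤ D' → p (D₁ + Finsupp.single P 1) → p D₁) :
    ∀ D, D ≤ D' → p D := by
  have key : ∀ (n : ℕ) (D : Dv k F), D ≤ D' → (deg (D' - D)).toNat = n → p D := by
    intro n
    induction n with
    | zero =>
      intro D h2 hn
      by_cases hne : D = D'
      · rwa [hne]
      · exfalso
        obtain ⟨P, hP, hd⟩ := Dv.exists_lt h2 hne
        have h3 : 0 ≤ deg (D' - (D + Finsupp.single P 1)) := by
          rw [← deg_zero (k := k) (K := F)]
          exact deg_mono (sub_nonneg.2 hP)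
        omega
    | succ n ih =>
      intro D h2 hn
      have hne : D ≠ D' := by
        rintro rfl
        rw [sub_self, deg_zero] at hn
        simp at hn
      obtain ⟨P, hP, hd⟩ := Dv.exists_lt h2 hne
      refine hs D P hP (ih _ hP ?_)
      rw [hd]
      omega
  intro D h
  exact key _ D h rfl

/-- A subspace of codimension one. -/
theorem finrank_codim_one {k V : Type} [Field k] [AddCommGroup V] [Module k V]
    {W' W : Submodule k V} (hle : W' ≤ W) (φ : V →ₗ[k] k) (h1 : ∀ ω ∈ W, φ ω = 0 → ω ∈ W')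
    (h2 : ∀ ω ∈ W', φ ω = 0) (h3 : ∃ ω ∈ W, φ ω ≠ 0) (hfin : FiniteDimensional k W') :
    FiniteDimensional k W ∧ Module.finrank k W = Module.finrank k W' + 1 := by
  let ψ : W →ₗ[k] k := φ.comp W.subtype
  have hker : LinearMap.ker ψ = W'.comap W.subtype := by
    ext ω
    rw [LinearMap.mem_ker, Submodule.mem_comap]
    exact ⟨fun h => h1 ω ω.2 h, fun h => h2 ω h⟩
  have hrange : LinearMap.range ψ = ⊤ := by
    obtain ⟨ω, hω, hω0⟩ := h3
    rw [LinearMap.range_eq_top]
    intro c
    refine ⟨(c * (φ ω)⁻¹) • ⟨ω, hω⟩, ?_⟩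
    rw [map_smul]
    change (c * (φ ω)⁻¹) • φ ω = c
    rw [smul_eq_mul, mul_assoc, inv_mul_cancel₀ hω0, mul_one]
  have hkfin : FiniteDimensional k (LinearMap.ker ψ) := by
    rw [hker]
    exact (Submodule.comapSubtypeEquivOfLe hle).symm.finiteDimensional
  have hqfin : FiniteDimensional k (W ⧸ LinearMap.ker ψ) :=
    ψ.quotKerEquivRange.symm.finiteDimensional
  have hfin' : FiniteDimensional k W := Module.Finite.of_submodule_quotient (LinearMap.ker ψ)
  refine ⟨hfin', ?_⟩
  have h4 := ψ.finrank_range_add_finrank_ker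
  rw [hrange, finrank_top, Module.finrank_self, hker,
    (Submodule.comapSubtypeEquivOfLe hle).finrank_eq] at h4
  omega

end Local

variable {k F : Type} [Field k] [IsAlgClosed k] [CharZero k] [Field F] [Algebra k F]

theorem L_step (hF : IsCurve k F) (D : Dv k F) (P : Pt k F) :
    (L (D + Finsupp.single P 1) = L D ∧ ell (D + Finsupp.single P 1) = ell D) ∨
    (ell (D + Finsupp.single P 1) = ell D + 1 ∧
      ∃ x ∈ L (D + Finsupp.single P 1), x ≠ 0 ∧ P.ord x = -D P - 1) := by
  have hle : D ≤ D + Finsupp.single P 1 :=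
    le_add_of_nonneg_right (Finsupp.single_nonneg.2 zero_le_one)
  have hfin : FiniteDimensional k (L (D + Finsupp.single P 1)) := hF.finDim _
  have h1 : L D ≤ L (D + Finsupp.single P 1) := L_mono hle
  have h2 : ell D ≤ ell (D + Finsupp.single P 1) := Submodule.finrank_mono h1
  have h3 := hF.ell_add_single_le D P
  rcases Nat.lt_or_ge (ell D) (ell (D + Finsupp.single P 1)) with h4 | h4
  · right
    refine ⟨by omega, ?_⟩
    obtain ⟨x, hx, hx'⟩ : ∃ x ∈ L (D + Finsupp.single P 1), x ∉ L D := by
      by_contra hcon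
      push Not at hcon
      have h5 : L (D + Finsupp.single P 1) = L D := le_antisymm hcon h1
      unfold ell at h4
      rw [h5] at h4
      exact lt_irrefl _ h4
    have hx0 : x ≠ 0 := by
      rintro rfl
      exact hx' (Submodule.zero_mem _)
    refine ⟨x, hx, hx0, ?_⟩
    rw [mem_L_of_ne hx0] at hx hx'
    push Not at hx'
    obtain ⟨Q, hQ⟩ := hx'
    have hQP : Q = P := by
      by_contra hne
      have h5 := hx Q
      rw [Finsupp.add_apply, Finsupp.single_eq_of_ne hne, add_zero] at h5
      exact absurd h5 (not_le.2 hQ)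
    subst hQP
    have h5 := hx Q
    rw [Finsupp.add_apply, Finsupp.single_eq_same] at h5
    omega
  · left
    have h5 : L D = L (D + Finsupp.single P 1) := Submodule.eq_of_le_of_finrank_le h1 h4
    exact ⟨h5.symm, by unfold ell; rw [h5]⟩

/-- If there is a function with the pole, the differentials are the same. -/
theorem Om_step_eq (hF : IsCurve k F) {D : Dv k F} {P : Pt k F} {x : F}
    (hx : x ∈ L (D + Finsupp.single P 1)) (hx0 : x ≠ 0) (hxP : P.ord x = -D P - 1) :
    Om hF D = Om hF (D + Finsupp.single P 1) := by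
  refine le_antisymm (fun ω hω => ⟨fun α hα => ?_, hω.2⟩) (Om_anti hF
    (le_add_of_nonneg_right (Finsupp.single_nonneg.2 zero_le_one)))
  obtain ⟨c, hc⟩ := step hF hα (inA_const.2 hx) hx0 hxP
  have h1 : ω (α - c • cst hF x) = 0 := hω.1 _ hc
  rw [map_sub, map_smul, hω.2, smul_zero, sub_zero] at h1
  exact h1

omit [IsAlgClosed k] [CharZero k] in
theorem exists_ord_eq (P : Pt k F) (n : ℤ) : ∃ f : F, f ≠ 0 ∧ P.ord f = n := by
  obtain ⟨ϖ, hϖ⟩ := P.exists_unif
  have h0 : ϖ ≠ 0 := by
    intro h
    rw [h] at hϖ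
    have h1 : P.ord (0 : F) = 0 := MP9a7843.ord_zero
    omega
  refine ⟨ϖ ^ n, zpow_ne_zero n h0, ?_⟩
  have h1 : P.ord (ϖ ^ n) = n * P.ord ϖ := P.2.ord_zpow ϖ n
  rw [h1, hϖ, mul_one]

/-- The repartition with one component. -/
def one (hF : IsCurve k F) (P : Pt k F) (f : F) : Ad hF :=
  ⟨Pi.single P f, Finsupp.single P (-P.ord f), fun Q => by
    by_cases hQ : Q = P
    · subst hQ
      rw [Pi.single_eq_same, Finsupp.single_eq_same, neg_neg]
      exact Or.inr le_rfl
    · rw [Pi.single_eq_of_ne hQ]
      exact LeOrd.zero _ _⟩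

/-- Without a function with the pole, the dimension drops by one. -/
theorem Om_step_ne (hF : IsCurve k F) {D : Dv k F} {P : Pt k F}
    (hL : L (D + Finsupp.single P 1) = L D)
    (hfin : FiniteDimensional k (Om hF (D + Finsupp.single P 1))) :
    FiniteDimensional k (Om hF D) ∧
      Module.finrank k (Om hF D) = Module.finrank k (Om hF (D + Finsupp.single P 1)) + 1 := by
  obtain ⟨f, hf0, hf⟩ := exists_ord_eq P (-D P - 1)
  let β : Ad hF := one hF P f
  have hβP : (β : Pt k F → F) P = f := Pi.single_eq_same (M := fun _ : Pt k F => F) P f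
  have hβ : InA (D + Finsupp.single P 1) (β : Pt k F → F) := by
    intro Q
    by_cases hQ : Q = P
    · subst hQ
      rw [hβP, Finsupp.add_apply, Finsupp.single_eq_same]
      refine Or.inr ?_
      rw [hf]
      omega
    · have h1 : (β : Pt k F → F) Q = 0 := Pi.single_eq_of_ne hQ _
      rw [h1]
      exact LeOrd.zero _ _
  have hle : Om hF (D + Finsupp.single P 1) ≤ Om hF D := Om_anti hF
    (le_add_of_nonneg_right (Finsupp.single_nonneg.2 zero_le_one))
  refine finrank_codim_one hle (LinearMap.applyₗ β) (fun ω hω h => ⟨fun α hα => ?_, hω.2⟩)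
    (fun ω hω => hω.1 β hβ) ?_ hfin
  · obtain ⟨c, hc⟩ := step hF hα hβ (by rw [hβP]; exact hf0) (by rw [hβP]; exact hf)
    have h0 : ω β = 0 := h
    have h1 : ω (α - c • β) = 0 := hω.1 _ hc
    rw [map_sub, map_smul, h0, smul_zero, sub_zero] at h1
    exact h1
  -- the functional that does not vanish at `β`
  · let p : Submodule k (Ad hF) :=
      { carrier := {α | ∃ x, InA D ((α - cst hF x : Ad hF) : Pt k F → F)}
        zero_mem' := ⟨0, fun Q => by
          have h1 : ((0 - cst hF 0 : Ad hF) : Pt k F → F) Q = 0 := by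
            change (0 : F) - 0 = 0
            rw [sub_zero]
          rw [h1]
          exact LeOrd.zero _ _⟩
        add_mem' := by
          rintro α α' ⟨x, hx⟩ ⟨y, hy⟩
          refine ⟨x + y, ?_⟩
          have h1 : α + α' - cst hF (x + y) = (α - cst hF x) + (α' - cst hF y) := by
            rw [cst_add]
            abel
          rw [h1]
          exact hx.add hy
        smul_mem' := by
          rintro c α ⟨x, hx⟩
          refine ⟨c • x, ?_⟩
          have h1 : c • α - cst hF (c • x) = c • (α - cst hF x) := by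
            rw [← smulk_cst, smul_sub]
          rw [h1]
          exact hx.smulk c }
    have hβp : β ∉ p := by
      rintro ⟨x, hx⟩
      have h1 : InA (D + Finsupp.single P 1) (fun _ : Pt k F => x) := by
        have h2 := hβ.sub (hx.mono (le_add_of_nonneg_right
          (Finsupp.single_nonneg.2 (zero_le_one' ℤ)) : D ≤ D + Finsupp.single P 1))
        have h3 : (β : Pt k F → F) - ((β - cst hF x : Ad hF) : Pt k F → F) = fun _ => x := by
          change (β : Pt k F → F) - ((β : Pt k F → F) - fun _ => x) = fun _ => x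
          rw [sub_sub_cancel]
        rwa [h3] at h2
      rw [inA_const, hL, ← inA_const] at h1
      have h2 : LeOrd P (-D P) ((β : Pt k F → F) P - x + x) := (hx.add h1) P
      rw [sub_add_cancel, hβP] at h2
      have h4 := h2.resolve_left hf0
      rw [hf] at h4
      omega
    obtain ⟨ψ, hψ1, hψ2⟩ := Submodule.exists_le_ker_of_notMem hβp
    refine ⟨ψ, ⟨fun α hα => hψ2 ⟨0, ?_⟩, fun x => hψ2 ⟨x, ?_⟩⟩, hψ1⟩
    · have h1 : α - cst hF 0 = α := by
        have h2 : cst hF 0 = 0 := rfl
        rw [h2, sub_zero]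
      rw [h1]
      exact hα
    · rw [sub_self]
      exact InA.zero D

end Pool.Agent.MPd118f9
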