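import Pool.Agent.Lib.MP_d118f9_ag.C.RRb

/-!
# MP_d118f9_ag, block C, Riemann-Roch: the index of speciality
-/

set_option autoImplicit false

noncomputable section

open Classical

namespace Pool.Agent.MPd118f9

variable {k F : Type} [Field k] [IsAlgClosed k] [CharZero k] [Field F] [Algebra k F]

/-- There are no differentials of large degree. -/
theorem exists_Om_bot (hF : IsCurve k F) : ∃ c₀ : ℤ, ∀ D : Dv k F, c₀ ≤ deg D →
    Om hF D = ⊥ ∧ (ell D : ℤ) = deg D + 1 - genus k F := by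
  obtain ⟨c₀, hc₀⟩ := hF.riemann
  refine ⟨c₀, fun D hD => ⟨?_, hc₀ D hD⟩⟩
  rw [eq_bot_iff]
  intro ω hω
  rw [Submodule.mem_bot]
  apply LinearMap.ext
  rintro ⟨α, D'', hα⟩
  rw [LinearMap.zero_apply]
  have key : ∀ D', D ≤ D' → ω ∈ Om hF D' := by
    refine Dv.induct_up hω fun D₁ P h1 h2 => ?_
    have h3 : deg D ≤ deg D₁ := deg_mono h1
    have h4 := hc₀ D₁ (hD.trans h3)
    have h5 := hc₀ (D₁ + Finsupp.single P 1) (by rw [deg_add, deg_single]; linarith)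
    rw [deg_add, deg_single] at h5
    rcases L_step hF D₁ P with ⟨-, h6⟩ | ⟨-, x, hx, hx0, hxP⟩
    · rw [h6] at h5
      omega
    · rwa [← Om_step_eq hF hx hx0 hxP]
  exact (key (D ⊔ D'') le_sup_left).1 ⟨α, D'', hα⟩ (hα.mono le_sup_right)

/-- The dimension of the space of differentials. -/
theorem finrank_Om (hF : IsCurve k F) (D : Dv k F) : FiniteDimensional k (Om hF D) ∧
    (Module.finrank k (Om hF D) : ℤ) = ell D - deg D - 1 + genus k F := by
  obtain ⟨c₀, hc₀⟩ := exists_Om_bot hF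
  obtain ⟨P₀⟩ := nonempty_pt hF
  set n : ℕ := (c₀ - deg D).toNat with hn
  have hD' : c₀ ≤ deg (D + Finsupp.single P₀ (n : ℤ)) := by
    rw [deg_add, deg_single]
    have h1 : c₀ - deg D ≤ (n : ℤ) := Int.self_le_toNat _
    linarith
  obtain ⟨h1, h2⟩ := hc₀ _ hD'
  refine Dv.induct_down (D' := D + Finsupp.single P₀ (n : ℤ))
    (p := fun D => FiniteDimensional k (Om hF D) ∧
      (Module.finrank k (Om hF D) : ℤ) = ell D - deg D - 1 + genus k F) ?_ ?_ D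
    (le_add_of_nonneg_right (Finsupp.single_nonneg.2 (Int.natCast_nonneg n)))
  · refine ⟨?_, ?_⟩
    · rw [h1]
      infer_instance
    · rw [h1, finrank_bot, h2]
      push_cast
      ring
  · rintro D₁ P - ⟨h3, h4⟩
    rcases L_step hF D₁ P with ⟨h5, h6⟩ | ⟨h5, x, hx, hx0, hxP⟩
    · obtain ⟨h7, h8⟩ := Om_step_ne hF h5 h3
      refine ⟨h7, ?_⟩
      rw [h6, deg_add, deg_single] at h4
      rw [h8]
      push_cast
      linarith
    · rw [Om_step_eq hF hx hx0 hxP]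
      refine ⟨h3, ?_⟩
      rw [h4, h5, deg_add, deg_single]
      push_cast
      ring

/-- Multiplication by a function. -/
theorem mulOm_mem (hF : IsCurve k F) {D : Dv k F} {ω : Ad hF →ₗ[k] k} (hω : ω ∈ Om hF D)
    {x : F} (hx : x ≠ 0) : mulOm hF x ω ∈ Om hF (D + dv k x) := by
  refine ⟨fun α hα => ?_, fun y => ?_⟩
  · rw [mulOm_apply]
    refine hω.1 _ ?_
    have h1 := hα.smul hF hx
    rwa [add_sub_cancel_right] at h1
  · rw [mulOm_apply, smul_cst]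
    exact hω.2 _

theorem mulOm_mul (hF : IsCurve k F) (x y : F) (ω : Ad hF →ₗ[k] k) :
    mulOm hF x (mulOm hF y ω) = mulOm hF (x * y) ω := by
  apply LinearMap.ext
  intro α
  rw [mulOm_apply, mulOm_apply, mulOm_apply, smul_smul, mul_comm y x]

theorem mulOm_one (hF : IsCurve k F) (ω : Ad hF →ₗ[k] k) : mulOm hF 1 ω = ω := by
  apply LinearMap.ext
  intro α
  rw [mulOm_apply, one_smul]

/-- The map `x ↦ x ω`. -/
def mulOmL (hF : IsCurve k F) (ω : Ad hF →ₗ[k] k) : F →ₗ[k] (Ad hF →ₗ[k] k) where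
  toFun x := mulOm hF x ω
  map_add' x y := by
    apply LinearMap.ext
    intro α
    rw [LinearMap.add_apply, mulOm_apply, mulOm_apply, mulOm_apply, add_smul, map_add]
  map_smul' c x := by
    apply LinearMap.ext
    intro α
    rw [RingHom.id_apply, LinearMap.smul_apply, mulOm_apply, mulOm_apply, smul_assoc, map_smul]

theorem mulOmL_apply (hF : IsCurve k F) (ω : Ad hF →ₗ[k] k) (x : F) :
    mulOmL hF ω x = mulOm hF x ω := rfl

theorem mulOmL_inj (hF : IsCurve k F) {ω : Ad hF →ₗ[k] k} (hω : ω ≠ 0) :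
    Function.Injective (mulOmL hF ω) := by
  rw [injective_iff_map_eq_zero]
  intro x hx
  by_contra hx0
  apply hω
  have h1 : mulOm hF x⁻¹ (mulOm hF x ω) = ω := by
    rw [mulOm_mul, inv_mul_cancel₀ hx0, mulOm_one]
  rw [← h1]
  have h2 : mulOm hF x ω = 0 := hx
  rw [h2]
  rfl

/-- `x ω ∈ Ω(D)` for `x ∈ L(D₁ - D)`, `ω ∈ Ω(D₁)`. -/
theorem mulOm_mem_of_L (hF : IsCurve k F) {D D₁ : Dv k F} {ω : Ad hF →ₗ[k] k}
    (hω : ω ∈ Om hF D₁) {x : F} (hx : x ∈ L (D₁ - D)) : mulOm hF x ω ∈ Om hF D := by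
  by_cases hx0 : x = 0
  · subst hx0
    have h1 : mulOm hF 0 ω = 0 := map_zero (mulOmL hF ω)
    rw [h1]
    exact Submodule.zero_mem _
  · refine Om_anti hF ?_ (mulOm_mem hF hω hx0)
    intro P
    have h1 := (mem_L_of_ne hx0).1 hx P
    rw [Finsupp.add_apply, hF.dv_apply hx0]
    rw [Finsupp.sub_apply] at h1
    linarith

theorem exists_Om_ne (hF : IsCurve k F) : ∃ (D : Dv k F) (ω : Ad hF →ₗ[k] k),
    ω ∈ Om hF D ∧ ω ≠ 0 := by
  obtain ⟨P₀⟩ := nonempty_pt hF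
  set D : Dv k F := Finsupp.single P₀ (-2) with hD
  have hdeg : deg D = -2 := by rw [hD, deg_single]
  have h1 := (finrank_Om hF D).2
  rw [hF.ell_of_deg_neg (by rw [hdeg]; norm_num), hdeg] at h1
  have h2 : Om hF D ≠ ⊥ := by
    intro h
    rw [h, finrank_bot] at h1
    push_cast at h1
    have h3 : (0 : ℤ) ≤ genus k F := Int.natCast_nonneg _
    linarith
  obtain ⟨ω, hω, hω0⟩ := (Submodule.ne_bot_iff _).1 h2
  exact ⟨D, ω, hω, hω0⟩

/-- The space of differentials is one-dimensional over `F`. -/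
theorem Om_one_dim (hF : IsCurve k F) {D₁ D₂ : Dv k F} {ω₁ ω₂ : Ad hF →ₗ[k] k}
    (h₁ : ω₁ ∈ Om hF D₁) (h₂ : ω₂ ∈ Om hF D₂) (hω₁ : ω₁ ≠ 0) (hω₂ : ω₂ ≠ 0) :
    ∃ x : F, x ≠ 0 ∧ ω₂ = mulOm hF x ω₁ := by
  obtain ⟨P₀⟩ := nonempty_pt hF
  set n : ℕ := (3 * (genus k F : ℤ) - deg D₁ - deg D₂).toNat + 1 with hn
  set B : Dv k F := Finsupp.single P₀ (n : ℤ) with hB
  have hBdeg : deg B = n := by rw [hB, deg_single]
  have hn1 : 3 * (genus k F : ℤ) - deg D₁ - deg D₂ < n := by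
    have h1 := Int.self_le_toNat (3 * (genus k F : ℤ) - deg D₁ - deg D₂)
    rw [hn]
    push_cast
    linarith
  have hn0 : 0 < (n : ℤ) := by
    rw [hn]
    positivity
  obtain ⟨hfin, hdim⟩ := finrank_Om hF (-B)
  rw [hF.ell_of_deg_neg (by rw [deg_neg, hBdeg]; linarith), deg_neg, hBdeg] at hdim
  let U₁ : Submodule k (Ad hF →ₗ[k] k) := (L (D₁ + B)).map (mulOmL hF ω₁)
  let U₂ : Submodule k (Ad hF →ₗ[k] k) := (L (D₂ + B)).map (mulOmL hF ω₂)
  have hU₁ : U₁ ≤ Om hF (-B) := by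
    rintro _ ⟨x, hx, rfl⟩
    refine mulOm_mem_of_L hF h₁ ?_
    rwa [sub_neg_eq_add]
  have hU₂ : U₂ ≤ Om hF (-B) := by
    rintro _ ⟨x, hx, rfl⟩
    refine mulOm_mem_of_L hF h₂ ?_
    rwa [sub_neg_eq_add]
  have hd₁ : Module.finrank k U₁ = ell (D₁ + B) :=
    (Submodule.equivMapOfInjective _ (mulOmL_inj hF hω₁) (L (D₁ + B))).finrank_eq.symm
  have hd₂ : Module.finrank k U₂ = ell (D₂ + B) :=
    (Submodule.equivMapOfInjective _ (mulOmL_inj hF hω₂) (L (D₂ + B))).finrank_eq.symm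
  have hne : U₁ ⊓ U₂ ≠ ⊥ := by
    intro h
    have hf1 : FiniteDimensional k U₁ := Submodule.finiteDimensional_of_le hU₁
    have hf2 : FiniteDimensional k U₂ := Submodule.finiteDimensional_of_le hU₂
    have h3 := Submodule.finrank_sup_add_finrank_inf_eq U₁ U₂
    rw [h, finrank_bot, add_zero, hd₁, hd₂] at h3
    have h4 : Module.finrank k (U₁ ⊔ U₂ : Submodule k (Ad hF →ₗ[k] k)) ≤
        Module.finrank k (Om hF (-B)) := Submodule.finrank_mono (sup_le hU₁ hU₂)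
    have h5 := hF.le_ell (D₁ + B)
    have h6 := hF.le_ell (D₂ + B)
    rw [deg_add, hBdeg] at h5 h6
    have h7 : (ell (D₁ + B) : ℤ) + ell (D₂ + B) ≤ Module.finrank k (Om hF (-B)) := by
      rw [h3] at h4
      exact_mod_cast h4
    rw [hdim] at h7
    push_cast at h7
    linarith
  obtain ⟨η, ⟨⟨x, hx, hx'⟩, ⟨y, hy, hy'⟩⟩, hη0⟩ := (Submodule.ne_bot_iff _).1 hne
  have hx0 : x ≠ 0 := by
    rintro rfl
    rw [map_zero] at hx'
    exact hη0 hx'.symm
  have hy0 : y ≠ 0 := by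
    rintro rfl
    rw [map_zero] at hy'
    exact hη0 hy'.symm
  refine ⟨y⁻¹ * x, mul_ne_zero (inv_ne_zero hy0) hx0, ?_⟩
  rw [← mulOm_mul]
  have h3 : mulOm hF x ω₁ = mulOm hF y ω₂ := hx'.trans hy'.symm
  rw [h3, mulOm_mul, inv_mul_cancel₀ hy0, mulOm_one]

end Pool.Agent.MPd118f9
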