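import Pool.Agent.Lib.MP_d118f9_ag.C.RRc

/-!
# MP_d118f9_ag, block C: the theorem of Riemann and Roch
-/

set_option autoImplicit false

noncomputable section

open Classical

namespace Pool.Agent.MPd118f9

variable {k F : Type} [Field k] [IsAlgClosed k] [CharZero k] [Field F] [Algebra k F]

/-- The divisor of a differential. -/
theorem exists_div_Om (hF : IsCurve k F) {D₀ : Dv k F} {ω : Ad hF →ₗ[k] k}
    (hω : ω ∈ Om hF D₀) (hω0 : ω ≠ 0) :
    ∃ W : Dv k F, ω ∈ Om hF W ∧ ∀ D, ω ∈ Om hF D → D ≤ W := by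
  obtain ⟨c₀, hc₀⟩ := exists_Om_bot hF
  have hbd : ∀ D, ω ∈ Om hF D → deg D < c₀ := by
    intro D hD
    by_contra hcon
    push Not at hcon
    rw [(hc₀ D hcon).1, Submodule.mem_bot] at hD
    exact hω0 hD
  obtain ⟨d, ⟨W, hW, rfl⟩, hmax⟩ := Int.exists_greatest_of_bdd
    (P := fun d => ∃ D, ω ∈ Om hF D ∧ deg D = d)
    ⟨c₀, by
      rintro d ⟨D, hD, rfl⟩
      exact (hbd D hD).le⟩ ⟨deg D₀, D₀, hω, rfl⟩
  refine ⟨W, hW, fun D hD => ?_⟩
  by_contra hcon
  obtain ⟨P, hP⟩ : ∃ P, W P < D P := by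
    by_contra hcon'
    push Not at hcon'
    exact hcon hcon'
  have h1 : ω ∈ Om hF (W + Finsupp.single P 1) := by
    refine ⟨fun α hα => ?_, hW.2⟩
    let β : Ad hF := one hF P ((α : Pt k F → F) P)
    have hβP : (β : Pt k F → F) P = (α : Pt k F → F) P :=
      Pi.single_eq_same (M := fun _ : Pt k F => F) P _
    have hβQ : ∀ Q, Q ≠ P → (β : Pt k F → F) Q = 0 := fun Q hQ =>
      Pi.single_eq_of_ne (M := fun _ : Pt k F => F) hQ _
    have hβ : ω β = 0 := by
      refine hD.1 β fun Q => ?_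
      by_cases hQ : Q = P
      · subst hQ
        rw [hβP]
        refine (hα Q).mono ?_
        rw [Finsupp.add_apply, Finsupp.single_eq_same]
        omega
      · rw [hβQ Q hQ]
        exact LeOrd.zero _ _
    have hαβ : ω (α - β) = 0 := by
      refine hW.1 _ fun Q => ?_
      change LeOrd Q (-W Q) ((α : Pt k F → F) Q - (β : Pt k F → F) Q)
      by_cases hQ : Q = P
      · subst hQ
        rw [hβP, sub_self]
        exact LeOrd.zero _ _
      · rw [hβQ Q hQ, sub_zero]
        refine (hα Q).mono ?_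
        rw [Finsupp.add_apply, Finsupp.single_eq_of_ne hQ, add_zero]
    rw [map_sub, hβ, sub_zero] at hαβ
    exact hαβ
  have h2 := hmax _ ⟨_, h1, rfl⟩
  rw [deg_add, deg_single] at h2
  linarith

/-- The theorem of Riemann and Roch for the divisor of a differential. -/
theorem exists_rr (hF : IsCurve k F) : ∃ W : Dv k F, ∀ D : Dv k F,
    (ell D : ℤ) = deg D + 1 - genus k F + ell (W - D) := by
  obtain ⟨D₀, ω, hω, hω0⟩ := exists_Om_ne hF
  obtain ⟨W, hW, hWmax⟩ := exists_div_Om hF hω hω0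
  refine ⟨W, fun D => ?_⟩
  have hmap : (L (W - D)).map (mulOmL hF ω) = Om hF D := by
    apply le_antisymm
    · rintro _ ⟨x, hx, rfl⟩
      exact mulOm_mem_of_L hF hW hx
    · intro η hη
      by_cases hη0 : η = 0
      · rw [hη0]
        exact Submodule.zero_mem _
      obtain ⟨x, hx0, hx⟩ := Om_one_dim hF hW hη hω0 hη0
      refine ⟨x, ?_, hx.symm⟩
      have h1 : ω = mulOm hF x⁻¹ η := by
        rw [hx, mulOm_mul, inv_mul_cancel₀ hx0, mulOm_one]
      have h2 := mulOm_mem hF hη (inv_ne_zero hx0)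
      rw [← h1, hF.dv_inv hx0] at h2
      have h3 := hWmax _ h2
      refine (mem_L_of_ne hx0).2 fun P => ?_
      have h4 := h3 P
      rw [Finsupp.add_apply, Finsupp.neg_apply, hF.dv_apply hx0] at h4
      rw [Finsupp.sub_apply]
      linarith
  have h1 : Module.finrank k (Om hF D) = ell (W - D) := by
    rw [← hmap]
    exact (Submodule.equivMapOfInjective _ (mulOmL_inj hF hω0) (L (W - D))).finrank_eq.symm
  have h2 := (finrank_Om hF D).2
  rw [h1] at h2
  linarith

/-- Such a divisor is canonical. -/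
theorem isCan_of_rr (hF : IsCurve k F) {W : Dv k F}
    (h : ∀ D : Dv k F, (ell D : ℤ) = deg D + 1 - genus k F + ell (W - D)) : IsCan W := by
  have h0 := h 0
  rw [hF.ell_zero, deg_zero, sub_zero] at h0
  have h1 : (ell W : ℤ) = genus k F := by
    push_cast at h0
    linarith
  refine ⟨?_, by exact_mod_cast h1⟩
  have h2 := h W
  rw [sub_self, hF.ell_zero, h1] at h2
  push_cast at h2
  linarith

theorem rr_exists_can (hF : IsCurve k F) : ∃ W : Dv k F, IsCan W := by
  obtain ⟨W, hW⟩ := exists_rr hF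
  exact ⟨W, isCan_of_rr hF hW⟩

/-- Canonical divisors are equivalent to a divisor that satisfies the theorem. -/
theorem equiv_of_rr (hF : IsCurve k F) {W W' : Dv k F}
    (h : ∀ D : Dv k F, (ell D : ℤ) = deg D + 1 - genus k F + ell (W - D)) (hW' : IsCan W') :
    ∃ f : F, f ≠ 0 ∧ W' = W + dv k f := by
  have hW := isCan_of_rr hF h
  have h1 := h W'
  rw [hW'.1, hW'.2] at h1
  have h2 : ell (W - W') = 1 := by
    have h3 : (ell (W - W') : ℤ) = 1 := by linarith
    exact_mod_cast h3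
  have h3 : L (W - W') ≠ ⊥ := by
    intro h4
    unfold ell at h2
    rw [h4, finrank_bot] at h2
    exact zero_ne_one h2
  obtain ⟨f, hf, hf0⟩ := (Submodule.ne_bot_iff _).1 h3
  refine ⟨f, hf0, ?_⟩
  have h4 : 0 ≤ dv k f + (W - W') := by
    intro P
    have h5 := (mem_L_of_ne hf0).1 hf P
    rw [Finsupp.add_apply, hF.dv_apply hf0, Finsupp.coe_zero, Pi.zero_apply]
    linarith
  have h5 : deg (dv k f + (W - W')) = 0 := by
    rw [deg_add, hF.deg_dv hf0, deg_sub, hW.1, hW'.1]
    ring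
  have h6 : dv k f + (W - W') = 0 := by
    by_contra hne
    obtain ⟨P, hP, hd⟩ := Dv.exists_lt h4 (Ne.symm hne)
    have h7 : 0 ≤ deg (dv k f + (W - W') - (0 + Finsupp.single P 1)) := by
      rw [← deg_zero (k := k) (K := F)]
      exact deg_mono (sub_nonneg.2 hP)
    rw [hd, sub_zero, h5] at h7
    norm_num at h7
  have h7 : W' = W + dv k f := by
    have h8 : W + dv k f - W' = 0 := by
      rw [← h6]
      abel
    exact (sub_eq_zero.1 h8).symm
  exact h7

/-- The theorem of Riemann and Roch. -/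
theorem rr_riemann_roch (hF : IsCurve k F) {W : Dv k F} (hW : IsCan W) (D : Dv k F) :
    (ell D : ℤ) = deg D + 1 - genus k F + ell (W - D) := by
  obtain ⟨W₀, h⟩ := exists_rr hF
  obtain ⟨f, hf0, rfl⟩ := equiv_of_rr hF h hW
  have h1 : W₀ + dv k f - D = (W₀ - D) + dv k f := by abel
  rw [h D, h1, hF.ell_add_dv _ hf0]

/-- Canonical divisors are linearly equivalent. -/
theorem rr_equiv (hF : IsCurve k F) {W W' : Dv k F} (hW : IsCan W) (hW' : IsCan W') :
    ∃ f : F, f ≠ 0 ∧ W' = W + dv k f :=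
  equiv_of_rr hF (rr_riemann_roch hF hW) hW'

end Pool.Agent.MPd118f9
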